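import Pool.Agent.FBP46.Basic

set_option autoImplicit false

namespace FBP46

open Matrix

/-- the edges of the labelled multigraph given by natural matrices -/
abbrev Edge {ι : Type*} (M : Bool → Matrix ι ι ℕ) : Type _ :=
  Σ (i : ι) (j : ι) (l : Bool), Fin (M l i j)

/-- the 0/1 lift -/
def lift {ι : Type*} [DecidableEq ι] (M : Bool → Matrix ι ι ℕ) (l : Bool) :
    Matrix (Edge M) (Edge M) ℝ :=
  fun e f => if e.2.2.1 = l ∧ e.2.1 = f.1 then 1 else 0

theorem lift_vecMul {ι : Type*} [Fintype ι] [DecidableEq ι] (M : Bool → Matrix ι ι ℕ) (l : Bool)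
    (x : ι → ℝ) :
    (fun e : Edge M => x e.1) ᵥ* lift M l =
      fun f : Edge M => (x ᵥ* ((M l).map (Nat.cast : ℕ → ℝ))) f.1 := by
  funext f
  simp only [Matrix.vecMul, dotProduct, lift, Matrix.map_apply]
  rw [Fintype.sum_sigma]
  refine Finset.sum_congr rfl fun i _ => ?_
  rw [Fintype.sum_sigma, Finset.sum_eq_single f.1]
  · rw [Fintype.sum_sigma, Finset.sum_eq_single l]
    · simp; ring
    · intro l' _ hl'
      refine Finset.sum_eq_zero fun r _ => ?_
      simp [hl']
    · intro h; exact absurd (Finset.mem_univ _) h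
  · intro j _ hj
    rw [Fintype.sum_sigma]
    refine Finset.sum_eq_zero fun l' _ => Finset.sum_eq_zero fun r _ => ?_
    simp [hj]
  · intro h; exact absurd (Finset.mem_univ _) h

theorem HasVal.lift {ι : Type*} [Fintype ι] [DecidableEq ι] {M : Bool → Matrix ι ι ℕ}
    {f : ℕ → (ℕ → Bool) → ℝ} (h : HasVal (fun b => (M b).map (Nat.cast : ℕ → ℝ)) f) :
    HasVal (FBP46.lift M) f := by
  intro n hn w
  obtain ⟨ξ, c, h1, h2, h3, h4⟩ := h n hn w
  refine ⟨fun i e => ξ i e.1, c, fun i e => h1 i _, ?_, ?_, h4⟩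
  · funext e; simp only [h2]
  · intro i hi
    rw [lift_vecMul, h3 i hi]
    rfl

/-- final reduction -/
theorem final {ι : Type*} [Fintype ι] [DecidableEq ι] [Nonempty ι] (M : Bool → Matrix ι ι ℕ)
    (f : ℕ → (ℕ → Bool) → ℝ)
    (h : HasVal (fun b => (M b).map (Nat.cast : ℕ → ℝ)) f)
    (hno : ∀ n, 0 < n → ∀ w : ℕ → Bool, ∃ m, 0 < m ∧ ∃ v : ℕ → Bool, f n w * m < f m v * n)
    (S : ∀ (n : ℕ) (A : Fin 2 → Matrix (Fin n) (Fin n) ℂ),
      (∀ (i : Fin 2) (a b : Fin n), A i a b = 0 ∨ A i a b = 1) →
      ∃ (k : ℕ) (w : Fin k → Fin 2), 0 < k ∧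
        ∀ (m : ℕ) (v : Fin m → Fin 2), 0 < m →
          spectralRadius ℂ (List.ofFn (fun j => A (v j))).prod ^ k ≤
            spectralRadius ℂ (List.ofFn (fun j => A (w j))).prod ^ m) : False := by
  classical
  have hl := h.lift
  -- the edge type is nonempty
  have hne : Nonempty (Edge M) := by
    by_contra hc
    rw [not_nonempty_iff] at hc
    have hM : ∀ l i j, M l i j = 0 := by
      intro l i j
      by_contra h0
      exact hc.false ⟨i, j, l, ⟨0, Nat.pos_of_ne_zero h0⟩⟩
    obtain ⟨ξ, c, h1, h2, h3, h4⟩ := h 1 one_pos (fun _ => false)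
    have t := h3 0 one_pos
    simp only [Finset.range_one, Finset.prod_singleton] at h4
    have hc0 : c 0 ≠ 0 := by rw [h4]; exact (Real.exp_pos _).ne'
    obtain ⟨i⟩ := ‹Nonempty ι›
    · have t2 := congrFun t i
      simp only [Matrix.vecMul, dotProduct, Matrix.map_apply, hM, Nat.cast_zero, mul_zero,
        Finset.sum_const_zero, Pi.smul_apply, smul_eq_mul] at t2
      exact (mul_pos (by rw [h4]; exact Real.exp_pos _) (h1 _ _)).ne t2
  set N := Fintype.card (Edge M) with hN
  let e : Edge M ≃ Fin N := Fintype.equivFin _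
  let A : Fin 2 → Matrix (Fin N) (Fin N) ℂ := fun i =>
    Matrix.map (Matrix.reindex e e (lift M (decide (i = 1)))) Complex.ofReal
  have hA : ∀ (i : Fin 2) (a b : Fin N), A i a b = 0 ∨ A i a b = 1 := by
    intro i a b
    simp only [A, Matrix.map_apply, Matrix.reindex_apply, Matrix.submatrix_apply, lift]
    split_ifs
    · right; simp
    · left; simp
  -- spectral radius of a word
  have hval : ∀ (n : ℕ) (hn : 0 < n) (w : ℕ → Bool),
      spectralRadius ℂ (List.ofFn (fun j : Fin n => A (if w j then 1 else 0))).prod =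
        ENNReal.ofReal (Real.exp (f n w)) := by
    intro n hn w
    obtain ⟨ξ, c, h1, h2, h3, h4⟩ := hl n hn w
    let P : ℕ → Matrix (Fin N) (Fin N) ℝ := fun j => Matrix.reindex e e (lift M (w j))
    have hP : ∀ j a b, 0 ≤ P j a b := by
      intro j a b
      simp only [P, Matrix.reindex_apply, Matrix.submatrix_apply, lift]
      split_ifs <;> norm_num
    have hprodnn : ∀ (L : List (Matrix (Fin N) (Fin N) ℝ)), (∀ X ∈ L, ∀ a b, 0 ≤ X a b) →
        ∀ a b, 0 ≤ L.prod a b := by
      intro L
      induction L with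
      | nil =>
        intro _ a b
        simp only [List.prod_nil, Matrix.one_apply]
        split_ifs <;> norm_num
      | cons X L ih =>
        intro hX a b
        rw [List.prod_cons, Matrix.mul_apply]
        exact Finset.sum_nonneg fun x _ => mul_nonneg (hX X (by simp) a x)
          (ih (fun Y hY => hX Y (by simp [hY])) x b)
    have hmap : (List.ofFn (fun j : Fin n => A (if w j then 1 else 0))).prod =
        ((List.ofFn (fun j : Fin n => P j)).prod).map Complex.ofReal := by
      have e1 : (List.ofFn (fun j : Fin n => A (if w j then 1 else 0))) =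
          (List.ofFn (fun j : Fin n => P j)).map
            (RingHom.mapMatrix Complex.ofRealHom) := by
        rw [List.map_ofFn]
        congr 1
        funext j
        simp only [Function.comp, A, P, RingHom.mapMatrix_apply]
        congr 3
        cases w j <;> simp
      rw [e1, ← map_list_prod]
      rfl
    rw [hmap]
    haveI : Nonempty (Fin N) := ⟨e (Classical.choice hne)⟩
    refine perron _ ?_ (fun a => ξ 0 (e.symm a)) (fun a => h1 _ _) _ ?_
    · apply hprodnn
      intro X hX
      rw [List.mem_ofFn] at hX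
      obtain ⟨j, rfl⟩ := hX
      exact hP j
    · have key := vecMul_prod P (fun i a => ξ i (e.symm a)) c n ?_
      · rw [key, h4]
        simp only [h2]
      · intro i hi
        have t := h3 i hi
        funext a
        have t2 := congrFun t (e.symm a)
        simp only [Matrix.vecMul, dotProduct, Pi.smul_apply, smul_eq_mul, P,
          Matrix.reindex_apply, Matrix.submatrix_apply] at t2 ⊢
        rw [← t2]
        exact Fintype.sum_equiv e.symm _ _ (fun x => rfl)
  obtain ⟨k, w, hk, hopt⟩ := S N A hA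
  let w' : ℕ → Bool := fun i => if h : i < k then decide (w ⟨i, h⟩ = 1) else false
  obtain ⟨m, hm, v, hlt⟩ := hno k hk w'
  have h1 := hopt m (fun j => if v j then 1 else 0) hm
  rw [hval m hm v] at h1
  have h2 : (fun j : Fin k => A (w j)) = (fun j : Fin k => A (if w' j then 1 else 0)) := by
    funext j
    congr 1
    simp only [w', j.2, dif_pos, Fin.eta, decide_eq_true_eq]
    rcases Fin.exists_fin_two.mp ⟨w j, rfl⟩ with h | h <;> simp [h]
  rw [h2, hval k hk w'] at h1
  rw [← ENNReal.ofReal_pow (Real.exp_pos _).le, ← ENNReal.ofReal_pow (Real.exp_pos _).le,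
    ENNReal.ofReal_le_ofReal_iff (by positivity), ← Real.exp_nat_mul, ← Real.exp_nat_mul,
    Real.exp_le_exp] at h1
  linarith

end FBP46
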