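import Pool.Agent.FBP46.Cone
import Pool.Agent.FBP46.Lift

set_option autoImplicit false

namespace FBP46

/-- the frozen statement from the theorem about `F` -/
theorem frozen_of_F
    (hno : ∀ n, 0 < n → ∀ w : ℕ → Bool, ∃ m, 0 < m ∧ ∃ v : ℕ → Bool,
      F θ₀ θ₁ n w * m < F θ₀ θ₁ m v * n) :
    ¬ (∀ (n : ℕ) (A : Fin 2 → Matrix (Fin n) (Fin n) ℂ),
    (∀ (i : Fin 2) (a b : Fin n), A i a b = 0 ∨ A i a b = 1) →
    ∃ (k : ℕ) (w : Fin k → Fin 2), 0 < k ∧
      ∀ (m : ℕ) (v : Fin m → Fin 2), 0 < m →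
        spectralRadius ℂ (List.ofFn (fun j => A (v j))).prod ^ k ≤
          spectralRadius ℂ (List.ofFn (fun j => A (w j))).prod ^ m) := by
  intro S
  refine final big _ hasValN_big ?_ S
  intro n hn w
  obtain ⟨m, hm, v, h⟩ := hno n hn w
  refine ⟨m, hm, v, ?_⟩
  have e : ((n : ℝ) * (3 * Real.log 200 + 3 * Real.log 2000)) * m =
      ((m : ℝ) * (3 * Real.log 200 + 3 * Real.log 2000)) * n := by ring
  linarith

end FBP46
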