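import Mathlib

set_option autoImplicit false

namespace FBP46

open Matrix

/-- Perron: a nonnegative real matrix with a positive row eigenvector. -/
theorem perron {ι : Type*} [Fintype ι] [DecidableEq ι] [Nonempty ι] (P : Matrix ι ι ℝ)
    (hP : ∀ i j, 0 ≤ P i j) (ξ : ι → ℝ) (hξ : ∀ i, 0 < ξ i) (μ : ℝ)
    (h : ξ ᵥ* P = μ • ξ) :
    spectralRadius ℂ (P.map (Complex.ofReal)) = ENNReal.ofReal μ := by
  classical
  have hμ0 : 0 ≤ μ := by
    obtain ⟨j⟩ := ‹Nonempty ι›
    have h1 := congrFun h j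
    simp only [Matrix.vecMul, dotProduct, Pi.smul_apply, smul_eq_mul] at h1
    have h2 : 0 ≤ ∑ x, ξ x * P x j := Finset.sum_nonneg fun x _ => mul_nonneg (hξ x).le (hP x j)
    rw [h1] at h2
    exact nonneg_of_mul_nonneg_left h2 (hξ j)
  -- spectrum characterisation
  have hspec : ∀ z : ℂ, z ∈ spectrum ℂ (P.map (Complex.ofReal)) ↔
      ∃ y : ι → ℂ, y ≠ 0 ∧ y ᵥ* (P.map (Complex.ofReal)) = z • y := by
    intro z
    rw [spectrum.mem_iff, Matrix.isUnit_iff_isUnit_det, isUnit_iff_ne_zero, not_not,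
      ← Matrix.exists_vecMul_eq_zero_iff]
    constructor
    · rintro ⟨v, hv, hv2⟩
      refine ⟨v, hv, ?_⟩
      rw [Matrix.vecMul_sub, sub_eq_zero] at hv2
      rw [← hv2, Algebra.algebraMap_eq_smul_one, Matrix.vecMul_smul, Matrix.vecMul_one]
    · rintro ⟨v, hv, hv2⟩
      refine ⟨v, hv, ?_⟩
      rw [Matrix.vecMul_sub, sub_eq_zero, hv2, Algebra.algebraMap_eq_smul_one,
        Matrix.vecMul_smul, Matrix.vecMul_one]
  apply le_antisymm
  · refine iSup₂_le fun z hz => ?_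
    rw [hspec] at hz
    obtain ⟨y, hy0, hy⟩ := hz
    obtain ⟨k, -, hk⟩ := Finset.exists_max_image Finset.univ (fun i => ‖y i‖ / ξ i)
      Finset.univ_nonempty
    have hyk : 0 < ‖y k‖ := by
      rcases eq_or_lt_of_le (norm_nonneg (y k)) with h0 | h0
      · exfalso
        apply hy0
        funext i
        have h1 := hk i (Finset.mem_univ i)
        simp only [← h0, zero_div] at h1
        have h2 : ‖y i‖ ≤ 0 := by
          by_contra hc
          push Not at hc
          exact absurd (div_pos hc (hξ i)) (not_lt.mpr h1)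
        simpa using h2
      · exact h0
    have hkey : ‖z‖ * ‖y k‖ ≤ μ * ‖y k‖ := by
      have h1 := congrFun hy k
      simp only [Matrix.vecMul, dotProduct, Matrix.map_apply, Pi.smul_apply, smul_eq_mul] at h1
      have h2 := congrFun h k
      simp only [Matrix.vecMul, dotProduct, Pi.smul_apply, smul_eq_mul] at h2
      have h3 : ∀ i, ‖y i‖ ≤ ‖y k‖ / ξ k * ξ i := by
        intro i
        have := hk i (Finset.mem_univ i)
        rwa [div_le_iff₀ (hξ i)] at this
      calc ‖z‖ * ‖y k‖ = ‖∑ x, y x * (P x k : ℂ)‖ := by rw [← norm_mul, ← h1]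
        _ ≤ ∑ x, ‖y x * (P x k : ℂ)‖ := norm_sum_le _ _
        _ = ∑ x, ‖y x‖ * P x k := by
            refine Finset.sum_congr rfl fun x _ => ?_
            rw [norm_mul, Complex.norm_real, Real.norm_of_nonneg (hP x k)]
        _ ≤ ∑ x, (‖y k‖ / ξ k * ξ x) * P x k :=
            Finset.sum_le_sum fun x _ => mul_le_mul_of_nonneg_right (h3 x) (hP x k)
        _ = ‖y k‖ / ξ k * ∑ x, ξ x * P x k := by
            rw [Finset.mul_sum]; exact Finset.sum_congr rfl fun x _ => by ring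
        _ = μ * ‖y k‖ := by rw [h2]; field_simp [(hξ k).ne']
    have h4 : ‖z‖ ≤ μ := le_of_mul_le_mul_right hkey hyk
    rw [← enorm_eq_nnnorm, ← ofReal_norm]
    exact ENNReal.ofReal_le_ofReal h4
  · have h1 : ((μ : ℝ) : ℂ) ∈ spectrum ℂ (P.map (Complex.ofReal)) := by
      rw [hspec]
      refine ⟨fun i => (ξ i : ℂ), ?_, ?_⟩
      · intro h0
        obtain ⟨j⟩ := ‹Nonempty ι›
        have := congrFun h0 j
        simp only [Pi.zero_apply, Complex.ofReal_eq_zero] at this
        exact (hξ j).ne' this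
      · funext j
        have h2 := congrFun h j
        simp only [Matrix.vecMul, dotProduct, Pi.smul_apply, smul_eq_mul, Matrix.map_apply] at h2 ⊢
        rw [← Complex.ofReal_mul, ← h2]
        push_cast
        rfl
    have h2 : ENNReal.ofReal μ = (‖((μ : ℝ) : ℂ)‖₊ : ENNReal) := by
      rw [← enorm_eq_nnnorm, ← ofReal_norm, Complex.norm_real, Real.norm_of_nonneg hμ0]
    rw [h2]
    exact le_iSup₂ (f := fun (k : ℂ) (_ : k ∈ spectrum ℂ (P.map (Complex.ofReal))) =>
      (‖k‖₊ : ENNReal)) _ h1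

/-- A family of matrices has value `f`: every periodic word has a positive projective row orbit. -/
def HasVal {ι : Type*} [Fintype ι] (M : Bool → Matrix ι ι ℝ) (f : ℕ → (ℕ → Bool) → ℝ) : Prop :=
  ∀ n, 0 < n → ∀ w : ℕ → Bool, ∃ (ξ : ℕ → ι → ℝ) (c : ℕ → ℝ), (∀ i j, 0 < ξ i j) ∧ ξ n = ξ 0 ∧
    (∀ i < n, ξ i ᵥ* M (w i) = c i • ξ (i + 1)) ∧
    ∏ i ∈ Finset.range n, c i = Real.exp (f n w)

theorem vecMul_prod {ι : Type*} [Fintype ι] [DecidableEq ι] (N : ℕ → Matrix ι ι ℝ)
    (ξ : ℕ → ι → ℝ) (c : ℕ → ℝ) (n : ℕ) (h : ∀ i < n, ξ i ᵥ* N i = c i • ξ (i + 1)) :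
    ξ 0 ᵥ* (List.ofFn (fun j : Fin n => N j)).prod = (∏ i ∈ Finset.range n, c i) • ξ n := by
  induction n with
  | zero => simp
  | succ n ih =>
    rw [List.ofFn_succ', List.concat_eq_append, List.prod_append, ← Matrix.vecMul_vecMul]
    simp only [Fin.val_castSucc, List.prod_singleton, Fin.val_last]
    rw [ih (fun i hi => h i (by omega)), Matrix.smul_vecMul, h n (by omega), smul_smul,
      Finset.prod_range_succ]

theorem HasVal.congr {ι : Type*} [Fintype ι] {M : Bool → Matrix ι ι ℝ}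
    {f g : ℕ → (ℕ → Bool) → ℝ} (h : HasVal M f) (hfg : ∀ n, 0 < n → ∀ w, f n w = g n w) :
    HasVal M g := by
  intro n hn w
  obtain ⟨ξ, c, h1, h2, h3, h4⟩ := h n hn w
  exact ⟨ξ, c, h1, h2, h3, by rw [h4, hfg n hn w]⟩

theorem HasVal.scale {ι : Type*} [Fintype ι] {M : Bool → Matrix ι ι ℝ}
    {f : ℕ → (ℕ → Bool) → ℝ} (h : HasVal M f) (K : ℝ) (hK : 0 < K) :
    HasVal (fun b => K • M b) (fun n w => f n w + n * Real.log K) := by
  intro n hn w
  obtain ⟨ξ, c, h1, h2, h3, h4⟩ := h n hn w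
  refine ⟨ξ, fun i => K * c i, h1, h2, ?_, ?_⟩
  · intro i hi
    rw [Matrix.vecMul_smul, h3 i hi, smul_smul]
  · rw [Finset.prod_mul_distrib, h4, Real.exp_add, Finset.prod_const, Finset.card_range,
      Real.exp_nat_mul, Real.exp_log hK, mul_comm]

theorem vecMul_kron {ι κ : Type*} [Fintype ι] [Fintype κ] (A : Matrix ι ι ℝ) (B : Matrix κ κ ℝ)
    (u : ι → ℝ) (v : κ → ℝ) :
    (fun p : ι × κ => u p.1 * v p.2) ᵥ* (Matrix.kroneckerMap (· * ·) A B) =
      fun p : ι × κ => (u ᵥ* A) p.1 * (v ᵥ* B) p.2 := by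
  funext p
  simp only [Matrix.vecMul, dotProduct, Matrix.kroneckerMap_apply]
  rw [Fintype.sum_prod_type, Finset.sum_mul_sum]
  refine Finset.sum_congr rfl fun i _ => Finset.sum_congr rfl fun j _ => by ring

theorem HasVal.kron {ι κ : Type*} [Fintype ι] [Fintype κ] {M : Bool → Matrix ι ι ℝ}
    {N : Bool → Matrix κ κ ℝ}
    {f g : ℕ → (ℕ → Bool) → ℝ} (h : HasVal M f) (h' : HasVal N g) :
    HasVal (fun b => Matrix.kroneckerMap (· * ·) (M b) (N b)) (fun n w => f n w + g n w) := by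
  intro n hn w
  obtain ⟨ξ, c, h1, h2, h3, h4⟩ := h n hn w
  obtain ⟨η, d, k1, k2, k3, k4⟩ := h' n hn w
  refine ⟨fun i p => ξ i p.1 * η i p.2, fun i => c i * d i, ?_, ?_, ?_, ?_⟩
  · intro i p; exact mul_pos (h1 i _) (k1 i _)
  · funext p; simp only [h2, k2]
  · intro i hi
    rw [vecMul_kron, h3 i hi, k3 i hi]
    funext p
    simp only [Pi.smul_apply, smul_eq_mul]
    ring
  · rw [Finset.prod_mul_distrib, h4, k4, Real.exp_add]

/-- the substitution a -> ab, b -> aa (`false` = a, `true` = b) -/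
def sig (w : ℕ → Bool) : ℕ → Bool := fun i => if i % 2 = 0 then false else !(w (i / 2))

theorem HasVal.sigma {ι : Type*} [Fintype ι] {M : Bool → Matrix ι ι ℝ}
    {f : ℕ → (ℕ → Bool) → ℝ} (h : HasVal M f) :
    HasVal (fun b => M false * M (!b)) (fun n w => f (2 * n) (sig w)) := by
  intro n hn w
  obtain ⟨ξ, c, h1, h2, h3, h4⟩ := h (2 * n) (by omega) (sig w)
  refine ⟨fun i => ξ (2 * i), fun i => c (2 * i) * c (2 * i + 1), ?_, ?_, ?_, ?_⟩
  · intro i j; exact h1 _ _
  · simpa using h2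
  · intro i hi
    have e1 : sig w (2 * i) = false := by simp [sig]
    have e2 : sig w (2 * i + 1) = !(w i) := by
      have : (2 * i + 1) % 2 ≠ 0 := by omega
      have h' : (2 * i + 1) / 2 = i := by omega
      simp [sig, h']
    have t1 := h3 (2 * i) (by omega)
    have t2 := h3 (2 * i + 1) (by omega)
    rw [e1] at t1
    rw [e2] at t2
    rw [← Matrix.vecMul_vecMul, t1, Matrix.smul_vecMul, t2, smul_smul]
    rfl
  · rw [← h4]
    clear h4 h3 h2 hn
    induction n with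
    | zero => simp
    | succ n ih =>
      rw [Finset.prod_range_succ, ih, show 2 * (n + 1) = 2 * n + 1 + 1 by ring,
        Finset.prod_range_succ, Finset.prod_range_succ, mul_assoc]

/-- lag three: shift of tensor factors -/
def tri {ι : Type*} [DecidableEq ι] (C : Bool → Matrix ι ι ℝ) : Bool → Matrix (ι × ι × ι) (ι × ι × ι) ℝ :=
  fun b p q => if p.2.1 = q.1 ∧ p.2.2 = q.2.1 then C b p.1 q.2.2 else 0

theorem vecMul_tri {ι : Type*} [Fintype ι] [DecidableEq ι] (C : Bool → Matrix ι ι ℝ) (b : Bool)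
    (x y z : ι → ℝ) :
    (fun p : ι × ι × ι => x p.1 * y p.2.1 * z p.2.2) ᵥ* tri C b =
      fun p : ι × ι × ι => y p.1 * z p.2.1 * (x ᵥ* C b) p.2.2 := by
  funext q
  simp only [Matrix.vecMul, dotProduct, tri]
  rw [Fintype.sum_prod_type]
  simp_rw [Fintype.sum_prod_type]
  rw [Finset.mul_sum]
  refine Finset.sum_congr rfl fun i _ => ?_
  rw [Finset.sum_eq_single q.1]
  · rw [Finset.sum_eq_single q.2.1]
    · simp; ring
    · intro k _ hk; simp [hk]
    · intro h; exact absurd (Finset.mem_univ _) h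
  · intro j _ hj
    refine Finset.sum_eq_zero fun k _ => ?_
    simp [hj]
  · intro h; exact absurd (Finset.mem_univ _) h

end FBP46
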