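import Mathlib

set_option autoImplicit false

namespace FBP46

/-- parameters of a normal form pair -/
structure Par where
  R : ℝ
  d : ℝ
  t : ℝ

structure Good (θ : Par) : Prop where
  R0 : 0 < θ.R
  d0 : 0 < θ.d
  t0 : 0 < θ.t
  R1 : θ.R ≤ 1 / 100
  d1 : θ.d ≤ 1 / 50
  t1 : θ.t ≤ 1 / 100

/-- projective action of the letters (`false` = a, `true` = b) -/
noncomputable def phi (θ : Par) (b : Bool) (z : ℝ) : ℝ :=
  if b then θ.d + θ.t * (z / (1 - z)) else θ.R * z

theorem phi_mem {θ : Par} (hθ : Good θ) (b : Bool) {z : ℝ} (h0 : 0 ≤ z) (h1 : z ≤ 1 / 2) :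
    0 ≤ phi θ b z ∧ phi θ b z ≤ 1 / 2 := by
  obtain ⟨R0, d0, t0, R1, d1, t1⟩ := hθ
  have hz : 0 ≤ z / (1 - z) := div_nonneg h0 (by linarith)
  have hz1 : z / (1 - z) ≤ 1 := by rw [div_le_one (by linarith)]; linarith
  cases b
  · simp only [phi, Bool.false_eq_true, if_false]
    constructor <;> nlinarith
  · simp only [phi, if_true]
    constructor <;> nlinarith

theorem phi_lip {θ : Par} (hθ : Good θ) (b : Bool) {z z' e : ℝ} (_h0 : 0 ≤ z) (h1 : z ≤ 1 / 2)
    (_h0' : 0 ≤ z') (h1' : z' ≤ 1 / 2) (he : 0 ≤ e) (h : z' ≤ z + e) :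
    phi θ b z' ≤ phi θ b z + e / 25 := by
  obtain ⟨R0, d0, t0, R1, d1, t1⟩ := hθ
  cases b
  · simp only [phi, Bool.false_eq_true, if_false]
    nlinarith
  · simp only [phi, if_true]
    have e1 : z' / (1 - z') - z / (1 - z) = (z' - z) / ((1 - z') * (1 - z)) := by
      field_simp [show (1 - z) ≠ 0 by linarith, show (1 - z') ≠ 0 by linarith]
      ring
    have h4 : (1 : ℝ) / 4 ≤ (1 - z') * (1 - z) := by nlinarith
    have e2 : (z' - z) / ((1 - z') * (1 - z)) ≤ 4 * e := by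
      rw [div_le_iff₀ (by linarith)]
      nlinarith
    nlinarith

/-- solution of the lag `l` recursion for the cyclic word `(n, w)` -/
def IsSol (θ : Par) (l n : ℕ) (w : ℕ → Bool) (x : ℕ → ℝ) : Prop :=
  (∀ i < n, 0 ≤ x i ∧ x i ≤ 1 / 2) ∧ ∀ i < n, x ((i + l) % n) = phi θ (w i) (x i)

/-- predecessor index -/
def pre (l n j : ℕ) : ℕ := (j + (n - l % n)) % n

theorem pre_lt {l n j : ℕ} (hn : 0 < n) : pre l n j < n := Nat.mod_lt _ hn

theorem pre_add {l n j : ℕ} (hn : 0 < n) (hj : j < n) : (pre l n j + l) % n = j := by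
  unfold pre
  rw [Nat.mod_add_mod, add_assoc]
  have h1 : l % n < n := Nat.mod_lt _ hn
  have h2 : n - l % n + l = n * (l / n + 1) := by
    have := Nat.mod_add_div l n
    have h3 : n * (l / n + 1) = n * (l / n) + n := by ring
    rw [h3]
    omega
  rw [h2, Nat.add_mul_mod_self_left, Nat.mod_eq_of_lt hj]

theorem add_pre {l n i : ℕ} (hn : 0 < n) (hi : i < n) : pre l n ((i + l) % n) = i := by
  unfold pre
  rw [Nat.mod_add_mod, add_assoc]
  have h1 : l % n < n := Nat.mod_lt _ hn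
  have h2 : l + (n - l % n) = n * (l / n + 1) := by
    have := Nat.mod_add_div l n
    have h3 : n * (l / n + 1) = n * (l / n) + n := by ring
    rw [h3]
    omega
  rw [h2, Nat.add_mul_mod_self_left, Nat.mod_eq_of_lt hi]

theorem exists_sol {θ : Par} (hθ : Good θ) (l n : ℕ) (hn : 0 < n) (w : ℕ → Bool) :
    ∃ x, IsSol θ l n w x := by
  let f : (Fin n → Set.Icc (0 : ℝ) (1 / 2)) → (Fin n → Set.Icc (0 : ℝ) (1 / 2)) := fun y j =>
    ⟨phi θ (w (pre l n j)) (y ⟨pre l n j, pre_lt hn⟩), phi_mem hθ _ (y _).2.1 (y _).2.2⟩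
  have : CompleteSpace (Set.Icc (0 : ℝ) (1 / 2)) := isClosed_Icc.completeSpace_coe
  have : Nonempty (Set.Icc (0 : ℝ) (1 / 2)) := ⟨⟨0, by norm_num⟩⟩
  have hf : ContractingWith (1 / 25) f := by
    constructor
    · rw [← NNReal.coe_lt_coe]; norm_num
    · refine LipschitzWith.of_dist_le_mul fun y y' => ?_
      rw [dist_pi_le_iff (by positivity)]
      intro j
      have hd : dist (y ⟨pre l n j, pre_lt hn⟩) (y' ⟨pre l n j, pre_lt hn⟩) ≤ dist y y' :=
        dist_le_pi_dist y y' _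
      rw [Subtype.dist_eq, Real.dist_eq] at hd ⊢
      rw [abs_le] at hd
      have k1 := phi_lip hθ (w (pre l n j)) (y ⟨pre l n j, pre_lt hn⟩).2.1
        (y ⟨pre l n j, pre_lt hn⟩).2.2 (y' ⟨pre l n j, pre_lt hn⟩).2.1
        (y' ⟨pre l n j, pre_lt hn⟩).2.2 (dist_nonneg (x := y) (y := y')) (by linarith)
      have k2 := phi_lip hθ (w (pre l n j)) (y' ⟨pre l n j, pre_lt hn⟩).2.1
        (y' ⟨pre l n j, pre_lt hn⟩).2.2 (y ⟨pre l n j, pre_lt hn⟩).2.1
        (y ⟨pre l n j, pre_lt hn⟩).2.2 (dist_nonneg (x := y) (y := y')) (by linarith)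
      have e : (((1 / 25 : NNReal) : ℝ)) = 1 / 25 := by norm_num
      rw [e, abs_le]
      simp only [f]
      constructor <;> linarith
  set y := hf.fixedPoint f with hy
  have hfix : f y = y := hf.fixedPoint_isFixedPt
  refine ⟨fun i => if h : i < n then (y ⟨i, h⟩ : ℝ) else 0, ?_, ?_⟩
  · intro i hi
    simp only [hi, dif_pos]
    exact (y ⟨i, hi⟩).2
  · intro i hi
    have hlt : (i + l) % n < n := Nat.mod_lt _ hn
    simp only [hi, hlt, dif_pos]
    have h1 := congrFun hfix ⟨(i + l) % n, hlt⟩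
    have h2 := congrArg Subtype.val h1
    simp only [f] at h2
    rw [← h2]
    simp only [add_pre hn hi]

theorem sol_unique {θ : Par} (hθ : Good θ) {l n : ℕ} (hn : 0 < n) {w : ℕ → Bool} {x y : ℕ → ℝ}
    (hx : IsSol θ l n w x) (hy : IsSol θ l n w y) : ∀ i < n, x i = y i := by
  obtain ⟨k, hk, hmax⟩ := Finset.exists_max_image (Finset.range n) (fun i => |x i - y i|)
    ⟨0, by simpa using hn⟩
  rw [Finset.mem_range] at hk
  have hp : pre l n k < n := pre_lt hn
  have h1 : x k = phi θ (w (pre l n k)) (x (pre l n k)) := by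
    rw [← hx.2 _ hp, pre_add hn hk]
  have h2 : y k = phi θ (w (pre l n k)) (y (pre l n k)) := by
    rw [← hy.2 _ hp, pre_add hn hk]
  have h3 := hmax (pre l n k) (by simpa using hp)
  have h4 : |x k - y k| ≤ |x k - y k| / 25 := by
    have b1 := hx.1 _ hp
    have b2 := hy.1 _ hp
    rw [abs_le] at h3
    have k1 := phi_lip hθ (w (pre l n k)) b1.1 b1.2 b2.1 b2.2 (abs_nonneg (x k - y k)) (by linarith)
    have k2 := phi_lip hθ (w (pre l n k)) b2.1 b2.2 b1.1 b1.2 (abs_nonneg (x k - y k)) (by linarith)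
    rw [← h1, ← h2] at k1 k2
    rw [abs_le]
    constructor <;> linarith
  have h5 : |x k - y k| = 0 := by
    have := abs_nonneg (x k - y k)
    linarith
  intro i hi
  have h6 := hmax i (by simpa using hi)
  simp only [h5] at h6
  have h7 : |x i - y i| = 0 := le_antisymm h6 (abs_nonneg _)
  rw [abs_eq_zero, sub_eq_zero] at h7
  exact h7

/-- the log of the Perron eigenvalue -/
noncomputable def Lv (θ : Par) (l n : ℕ) (w : ℕ → Bool) : ℝ :=
  open Classical in
  if h : ∃ x, IsSol θ l n w x then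
    ∑ i ∈ Finset.range n, if w i then Real.log (1 - h.choose i) else 0
  else 0

theorem Lv_eq {θ : Par} (hθ : Good θ) {l n : ℕ} (hn : 0 < n) {w : ℕ → Bool} {x : ℕ → ℝ}
    (hx : IsSol θ l n w x) :
    Lv θ l n w = ∑ i ∈ Finset.range n, if w i then Real.log (1 - x i) else 0 := by
  have h : ∃ x, IsSol θ l n w x := ⟨x, hx⟩
  unfold Lv
  rw [dif_pos h]
  refine Finset.sum_congr rfl fun i hi => ?_
  rw [Finset.mem_range] at hi
  rw [sol_unique hθ hn h.choose_spec hx i hi]

/-- a solution is below every fixed point of `phi b` -/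
theorem sol_le_fix {θ : Par} (hθ : Good θ) {l n : ℕ} (hn : 0 < n) {w : ℕ → Bool} {x : ℕ → ℝ}
    (hx : IsSol θ l n w x) {z : ℝ} (hz0 : 0 ≤ z) (hz1 : z ≤ 1 / 2)
    (hz : phi θ true z ≤ z) : ∀ i < n, x i ≤ z := by
  obtain ⟨k, hk, hmax⟩ := Finset.exists_max_image (Finset.range n) (fun i => x i)
    ⟨0, by simpa using hn⟩
  rw [Finset.mem_range] at hk
  have hp : pre l n k < n := pre_lt hn
  have h1 : x k = phi θ (w (pre l n k)) (x (pre l n k)) := by
    rw [← hx.2 _ hp, pre_add hn hk]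
  have h3 := hmax (pre l n k) (by simpa using hp)
  have b1 := hx.1 _ hp
  have b2 := hx.1 _ hk
  have hxk : x k ≤ z := by
    by_contra hc
    push Not at hc
    cases hw : w (pre l n k)
    · rw [hw] at h1
      simp only [phi, Bool.false_eq_true, if_false] at h1
      have := hθ.R1
      have := hθ.R0
      nlinarith
    · rw [hw] at h1
      have k1 := phi_lip hθ true hz0 hz1 b1.1 b1.2 (e := x k - z) (by linarith) (by linarith)
      rw [← h1] at k1
      linarith
  intro i hi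
  exact (hmax i (by simpa using hi)).trans hxk

/-- crude bound -/
theorem sol_le {θ : Par} (hθ : Good θ) {l n : ℕ} (hn : 0 < n) {w : ℕ → Bool} {x : ℕ → ℝ}
    (hx : IsSol θ l n w x) : ∀ i < n, x i ≤ 51 / 50 * θ.d := by
  obtain ⟨R0, d0, t0, R1, d1, t1⟩ := id hθ
  refine sol_le_fix hθ hn hx (by positivity) (by linarith) ?_
  simp only [phi, if_true]
  have h1 : 51 / 50 * θ.d / (1 - 51 / 50 * θ.d) ≤ 2 * θ.d := by
    rw [div_le_iff₀ (by linarith)]
    nlinarith
  nlinarith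

theorem phi_b_ge {θ : Par} (hθ : Good θ) {z : ℝ} (h0 : 0 ≤ z) (h1 : z ≤ 1 / 2) :
    θ.d ≤ phi θ true z := by
  simp only [phi, if_true]
  have : 0 ≤ z / (1 - z) := div_nonneg h0 (by linarith)
  nlinarith [hθ.t0]

end FBP46
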