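import Pool.Agent.FBP46.Basic
import Pool.Agent.FBP46.Sol

set_option autoImplicit false

namespace FBP46

open Matrix

/-- coordinates of `(1,-z)` in the basis `(1,1/2), (1,-1/2)` -/
noncomputable def vec (z : ℝ) : Fin 2 → ℝ := ![1 / 2 - z, 1 / 2 + z]

noncomputable def cone (θ : Par) (b : Bool) : Matrix (Fin 2) (Fin 2) ℝ :=
  if b then !![3 / 4 - 3 * θ.d / 2 + θ.t / 2, 3 / 4 + 3 * θ.d / 2 - θ.t / 2;
    1 / 4 - θ.d / 2 - θ.t / 2, 1 / 4 + θ.d / 2 + θ.t / 2]
  else !![(1 + θ.R) / 2, (1 - θ.R) / 2; (1 - θ.R) / 2, (1 + θ.R) / 2]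

theorem vec_cone (θ : Par) (b : Bool) (z : ℝ) (hz : z ≤ 1 / 2) :
    vec z ᵥ* cone θ b = (if b then 1 - z else 1) • vec (phi θ b z) := by
  have h1 : (1 - z) ≠ 0 := by linarith
  funext j
  cases b
  · fin_cases j
    · simp [vec, cone, phi, Matrix.vecMul, dotProduct, Fin.sum_univ_two]
      ring
    · simp [vec, cone, phi, Matrix.vecMul, dotProduct, Fin.sum_univ_two]
      ring
  · fin_cases j
    · simp [vec, cone, phi, Matrix.vecMul, dotProduct, Fin.sum_univ_two]
      field_simp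
      ring
    · simp [vec, cone, phi, Matrix.vecMul, dotProduct, Fin.sum_univ_two]
      field_simp
      ring

theorem vec_pos {z : ℝ} (h0 : 0 ≤ z) (h1 : z < 1 / 2) (j : Fin 2) : 0 < vec z j := by
  fin_cases j
  · simp [vec]; linarith
  · simp [vec]; linarith

theorem sol_ext {θ : Par} (hθ : Good θ) {l n : ℕ} (hn : 0 < n) {w : ℕ → Bool} {x : ℕ → ℝ}
    (hx : IsSol θ l n w x) (i : ℕ) : 0 ≤ x (i % n) ∧ x (i % n) < 1 / 2 := by
  have h := Nat.mod_lt i hn
  refine ⟨(hx.1 _ h).1, ?_⟩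
  have h2 := sol_le hθ hn hx _ h
  have := hθ.d1
  linarith

theorem prod_fac {θ : Par} (hθ : Good θ) {l n : ℕ} (hn : 0 < n) {w : ℕ → Bool} {x : ℕ → ℝ}
    (hx : IsSol θ l n w x) :
    ∏ i ∈ Finset.range n, (if w i then 1 - x (i % n) else 1) = Real.exp (Lv θ l n w) := by
  rw [Lv_eq hθ hn hx, Real.exp_sum]
  refine Finset.prod_congr rfl fun i hi => ?_
  rw [Finset.mem_range] at hi
  split_ifs
  · rw [Real.exp_log, Nat.mod_eq_of_lt hi]
    have := (hx.1 i hi).2
    linarith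
  · simp

theorem hasVal_one {θ : Par} (hθ : Good θ) : HasVal (cone θ) (fun n w => Lv θ 1 n w) := by
  intro n hn w
  obtain ⟨x, hx⟩ := exists_sol hθ 1 n hn w
  refine ⟨fun i => vec (x (i % n)), fun i => if w i then 1 - x (i % n) else 1, ?_, ?_, ?_, ?_⟩
  · intro i j
    exact vec_pos (sol_ext hθ hn hx i).1 (sol_ext hθ hn hx i).2 j
  · simp
  · intro i hi
    simp only
    rw [vec_cone _ _ _ (sol_ext hθ hn hx i).2.le]
    have h2 := hx.2 i hi
    rw [Nat.mod_eq_of_lt hi, ← h2]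
  · exact prod_fac hθ hn hx

theorem hasVal_three {θ : Par} (hθ : Good θ) :
    HasVal (tri (cone θ)) (fun n w => Lv θ 3 n w) := by
  intro n hn w
  obtain ⟨x, hx⟩ := exists_sol hθ 3 n hn w
  refine ⟨fun i p => vec (x (i % n)) p.1 * vec (x ((i + 1) % n)) p.2.1 *
    vec (x ((i + 2) % n)) p.2.2, fun i => if w i then 1 - x (i % n) else 1, ?_, ?_, ?_, ?_⟩
  · intro i j
    have h := fun i => vec_pos (sol_ext hθ hn hx i).1 (sol_ext hθ hn hx i).2
    exact mul_pos (mul_pos (h _ _) (h _ _)) (h _ _)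
  · funext p
    simp
  · intro i hi
    rw [vecMul_tri, vec_cone _ _ _ (sol_ext hθ hn hx i).2.le]
    have h2 := hx.2 i hi
    rw [Nat.mod_eq_of_lt hi, ← h2]
    funext p
    simp only [Pi.smul_apply, smul_eq_mul, add_assoc, Nat.mod_eq_of_lt hi]
    norm_num
    split_ifs <;> ring
  · exact prod_fac hθ hn hx

/-- natural matrices with a value -/
def HasValN {ι : Type*} [Fintype ι] (M : Bool → Matrix ι ι ℕ) (f : ℕ → (ℕ → Bool) → ℝ) : Prop :=
  HasVal (fun b => (M b).map (Nat.cast : ℕ → ℝ)) f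

theorem HasValN.sigma {ι : Type*} [Fintype ι] {M : Bool → Matrix ι ι ℕ}
    {f : ℕ → (ℕ → Bool) → ℝ} (h : HasValN M f) :
    HasValN (fun b => M false * M (!b)) (fun n w => f (2 * n) (sig w)) := by
  have h1 := HasVal.sigma h
  unfold HasValN
  have e : (fun b => (M false * M (!b)).map (Nat.cast : ℕ → ℝ)) =
      (fun b => (M false).map (Nat.cast : ℕ → ℝ) * (M (!b)).map (Nat.cast : ℕ → ℝ)) := by
    funext b
    ext i j
    simp [Matrix.mul_apply]
  rw [e]
  exact h1

theorem HasValN.kron {ι κ : Type*} [Fintype ι] [Fintype κ] {M : Bool → Matrix ι ι ℕ}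
    {N : Bool → Matrix κ κ ℕ}
    {f g : ℕ → (ℕ → Bool) → ℝ} (h : HasValN M f) (h' : HasValN N g) :
    HasValN (fun b => Matrix.kroneckerMap (· * ·) (M b) (N b)) (fun n w => f n w + g n w) := by
  have h1 := HasVal.kron h h'
  unfold HasValN
  have e : (fun b => (Matrix.kroneckerMap (· * ·) (M b) (N b)).map (Nat.cast : ℕ → ℝ)) =
      (fun b => Matrix.kroneckerMap (· * ·) ((M b).map (Nat.cast : ℕ → ℝ))
        ((N b).map (Nat.cast : ℕ → ℝ))) := by
    funext b
    ext i j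
    simp [Matrix.kroneckerMap_apply]
  rw [e]
  exact h1

/-- lag three for natural matrices -/
def triN {ι : Type*} [DecidableEq ι] (C : Bool → Matrix ι ι ℕ) :
    Bool → Matrix (ι × ι × ι) (ι × ι × ι) ℕ :=
  fun b p q => if p.2.1 = q.1 ∧ p.2.2 = q.2.1 then C b p.1 q.2.2 else 0

theorem triN_map {ι : Type*} [DecidableEq ι] (C : Bool → Matrix ι ι ℕ) (b : Bool) :
    (triN C b).map (Nat.cast : ℕ → ℝ) = tri (fun b => (C b).map (Nat.cast : ℕ → ℝ)) b := by
  ext p q
  simp only [triN, tri, Matrix.map_apply]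
  split_ifs <;> simp

def CN (b : Bool) : Matrix (Fin 2) (Fin 2) ℕ :=
  if b then !![145, 155; 47, 53] else !![101, 99; 99, 101]

def DN (b : Bool) : Matrix (Fin 2) (Fin 2) ℕ :=
  if b then !![1495, 1505; 497, 503] else !![1001, 999; 999, 1001]

noncomputable def θ₀ : Par := ⟨1 / 100, 1 / 50, 1 / 100⟩
noncomputable def θ₁ : Par := ⟨1 / 1000, 1 / 500, 1 / 1000⟩

theorem good₀ : Good θ₀ := by constructor <;> norm_num [θ₀]
theorem good₁ : Good θ₁ := by constructor <;> norm_num [θ₁]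

theorem CN_map (b : Bool) : (CN b).map (Nat.cast : ℕ → ℝ) = (200 : ℝ) • cone θ₀ b := by
  ext i j
  cases b <;> fin_cases i <;> fin_cases j <;> norm_num [CN, cone, θ₀]

theorem DN_map (b : Bool) : (DN b).map (Nat.cast : ℕ → ℝ) = (2000 : ℝ) • cone θ₁ b := by
  ext i j
  cases b <;> fin_cases i <;> fin_cases j <;> norm_num [DN, cone, θ₁]

theorem tri_smul {ι : Type*} [DecidableEq ι] (K : ℝ) (C : Bool → Matrix ι ι ℝ) (b : Bool) :
    tri (fun b => K • C b) b = K • tri C b := by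
  ext p q
  simp only [tri, Matrix.smul_apply, smul_eq_mul]
  split_ifs <;> simp

theorem hasValN_C : HasValN CN (fun n w => Lv θ₀ 1 n w + n * Real.log 200) := by
  unfold HasValN
  have e : (fun b => (CN b).map (Nat.cast : ℕ → ℝ)) = fun b => (200 : ℝ) • cone θ₀ b := by
    funext b; exact CN_map b
  rw [e]
  exact (hasVal_one good₀).scale 200 (by norm_num)

theorem hasValN_D : HasValN (triN DN) (fun n w => Lv θ₁ 3 n w + n * Real.log 2000) := by
  unfold HasValN
  have e : (fun b => (triN DN b).map (Nat.cast : ℕ → ℝ)) =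
      fun b => (2000 : ℝ) • tri (cone θ₁) b := by
    funext b
    rw [triN_map, ← tri_smul]
    congr 1
    funext b
    exact DN_map b
  rw [e]
  exact (hasVal_three good₁).scale 2000 (by norm_num)

/-- the functional -/
noncomputable def F (θ θ' : Par) (n : ℕ) (w : ℕ → Bool) : ℝ :=
  Lv θ 1 n w + Lv θ 1 (2 * n) (sig w) + Lv θ' 3 n w + Lv θ' 3 (2 * n) (sig w)

/-- the big natural matrices -/
def big (b : Bool) :=
  Matrix.kroneckerMap (· * ·) (Matrix.kroneckerMap (· * ·) (CN b) (CN false * CN (!b)))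
    (Matrix.kroneckerMap (· * ·) (triN DN b) (triN DN false * triN DN (!b)))

theorem hasValN_big : HasValN big (fun n w => F θ₀ θ₁ n w +
    n * (3 * Real.log 200 + 3 * Real.log 2000)) := by
  have h := (hasValN_C.kron hasValN_C.sigma).kron (hasValN_D.kron hasValN_D.sigma)
  refine HasVal.congr h ?_
  intro n _ w
  simp only [F]
  push_cast
  ring

end FBP46
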