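import Pool.Agent.FBP46.Sol

set_option autoImplicit false

namespace FBP46

/-- positive part of the difference of two solutions -/
noncomputable def ee (x x' : ℕ → ℝ) (i : ℕ) : ℝ := max (x' i - x i) 0

theorem ee_nonneg (x x' : ℕ → ℝ) (i : ℕ) : 0 ≤ ee x x' i := le_max_right _ _

theorem ee_le {x x' : ℕ → ℝ} {i : ℕ} {c : ℝ} (hc : 0 ≤ c) (h : x' i ≤ x i + c) : ee x x' i ≤ c :=
  max_le (by linarith) hc

theorem le_ee (x x' : ℕ → ℝ) (i : ℕ) : x' i ≤ x i + ee x x' i := by
  have := le_max_left (x' i - x i) 0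
  unfold ee
  linarith

theorem ee_step {θ : Par} (hθ : Good θ) {l n : ℕ} {w : ℕ → Bool} {x x' : ℕ → ℝ}
    (hx : IsSol θ l n w x) (hx' : IsSol θ l (n - 1) w x') {i : ℕ} (hi : i + l < n - 1) :
    ee x x' (i + l) ≤ ee x x' i / 25 := by
  have h1 := hx.2 i (by omega)
  have h2 := hx'.2 i (by omega)
  rw [Nat.mod_eq_of_lt (by omega)] at h1 h2
  have b1 := hx.1 i (by omega)
  have b2 := hx'.1 i (by omega)
  have h3 := phi_lip hθ (w i) b1.1 b1.2 b2.1 b2.2 (ee_nonneg x x' i) (le_ee x x' i)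
  refine ee_le (by have := ee_nonneg x x' i; positivity) ?_
  rw [h1, h2]
  exact h3

theorem sum_geo (e : ℕ → ℝ) (he : ∀ i, 0 ≤ e i) (a l N : ℕ) (hN : a + l ≤ N)
    (h : ∀ i, a ≤ i → i + l < N → e (i + l) ≤ e i / 25) :
    ∑ i ∈ Finset.Ico a N, e i ≤ 25 / 24 * ∑ i ∈ Finset.Ico a (a + l), e i := by
  have h1 : ∑ i ∈ Finset.Ico a N, e i =
      ∑ i ∈ Finset.Ico a (a + l), e i + ∑ i ∈ Finset.Ico (a + l) N, e i :=
    (Finset.sum_Ico_consecutive e (by omega) hN).symm
  have h2 : ∑ i ∈ Finset.Ico (a + l) N, e i = ∑ i ∈ Finset.Ico a (N - l), e (i + l) := by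
    rw [Finset.sum_Ico_add' e a (N - l) l]
    congr 2
    omega
  have h3 : ∑ i ∈ Finset.Ico a (N - l), e (i + l) ≤ ∑ i ∈ Finset.Ico a (N - l), e i / 25 := by
    refine Finset.sum_le_sum fun i hi => ?_
    rw [Finset.mem_Ico] at hi
    exact h i hi.1 (by omega)
  have h4 : ∑ i ∈ Finset.Ico a (N - l), e i / 25 ≤ ∑ i ∈ Finset.Ico a N, e i / 25 := by
    refine Finset.sum_le_sum_of_subset_of_nonneg ?_ ?_
    · exact Finset.Ico_subset_Ico_right (by omega)
    · intro i _ _
      have := he i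
      positivity
  rw [← Finset.sum_div, ← Finset.sum_div] at h4
  rw [← Finset.sum_div] at h3
  linarith

theorem log_diff {a b : ℝ} (_ha : 0 ≤ a) (ha1 : a ≤ 1 / 2) (hb1 : b ≤ 51 / 50 * (1 / 50)) :
    Real.log (1 - a) - Real.log (1 - b) ≤ 103 / 100 * max (b - a) 0 := by
  rw [← Real.log_div (by linarith) (by linarith)]
  have h1 : (1 - a) / (1 - b) - 1 = (b - a) / (1 - b) := by
    field_simp [show (1 - b) ≠ 0 by linarith]
    ring
  have h2 := Real.log_le_sub_one_of_pos (x := (1 - a) / (1 - b)) (div_pos (by linarith) (by linarith))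
  rw [h1] at h2
  refine h2.trans ?_
  rw [div_le_iff₀ (by linarith)]
  have h3 := le_max_left (b - a) 0
  have h4 := le_max_right (b - a) 0
  nlinarith

/-- comparison of the costs of `(n,w)` and `(n-1,w)` -/
theorem cost_diff {θ : Par} (hθ : Good θ) {l n : ℕ} (hn : 2 ≤ n) {w : ℕ → Bool} {x x' : ℕ → ℝ}
    (hx : IsSol θ l n w x) (hx' : IsSol θ l (n - 1) w x') :
    Lv θ l n w - Lv θ l (n - 1) w ≤
      103 / 100 * ∑ i ∈ Finset.range (n - 1), (if w i then ee x x' i else 0) -
        (if w (n - 1) then x (n - 1) else 0) := by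
  rw [Lv_eq hθ (by omega) hx, Lv_eq hθ (by omega) hx']
  obtain ⟨m, rfl⟩ : ∃ m, n = m + 1 := ⟨n - 1, by omega⟩
  simp only [Nat.add_sub_cancel] at hx' ⊢
  rw [Finset.sum_range_succ]
  have h1 : (if w m then Real.log (1 - x m) else 0) ≤ -(if w m then x m else 0) := by
    split_ifs
    · have := (hx.1 m (by omega)).2
      have := Real.log_le_sub_one_of_pos (x := 1 - x m) (by linarith)
      linarith
    · simp
  have h2 : ∑ i ∈ Finset.range m, (if w i then Real.log (1 - x i) else 0) -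
      ∑ i ∈ Finset.range m, (if w i then Real.log (1 - x' i) else 0) ≤
      103 / 100 * ∑ i ∈ Finset.range m, (if w i then ee x x' i else 0) := by
    rw [← Finset.sum_sub_distrib, Finset.mul_sum]
    refine Finset.sum_le_sum fun i hi => ?_
    rw [Finset.mem_range] at hi
    split_ifs
    · have b1 := hx.1 i (by omega)
      have b2 := sol_le hθ (by omega) hx' i hi
      have := hθ.d1
      exact log_diff b1.1 b1.2 (by linarith)
    · simp
  linarith

theorem exists_fix {θ : Par} (hθ : Good θ) : ∃ z, 0 ≤ z ∧ z ≤ 1 / 2 ∧ phi θ true z = z := by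
  obtain ⟨x, hx⟩ := exists_sol hθ 1 1 one_pos (fun _ => true)
  have h1 := hx.1 0 one_pos
  have h2 := hx.2 0 one_pos
  exact ⟨x 0, h1.1, h1.2, by simpa using h2.symm⟩

theorem le_phi_b {θ : Par} (hθ : Good θ) {l n : ℕ} (hn : 0 < n) {w : ℕ → Bool} {x : ℕ → ℝ}
    (hx : IsSol θ l n w x) {i : ℕ} (hi : i < n) : x i ≤ phi θ true (x i) := by
  obtain ⟨z, h0, h1, h2⟩ := exists_fix hθ
  have h3 := sol_le_fix hθ hn hx h0 h1 h2.le i hi
  have b := hx.1 i hi
  have h4 := phi_lip hθ true b.1 b.2 h0 h1 (e := z - x i) (by linarith) (by linarith)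
  rw [h2] at h4
  linarith

theorem phi_mono {θ : Par} (hθ : Good θ) (b : Bool) {z z' : ℝ} (h0 : 0 ≤ z) (h1 : z ≤ 1 / 2)
    (h0' : 0 ≤ z') (h1' : z' ≤ 1 / 2) (h : z' ≤ z) : phi θ b z' ≤ phi θ b z := by
  have := phi_lip hθ b h0 h1 h0' h1' (e := 0) le_rfl (by linarith)
  linarith

/-- deletion of the second b in bb, lag one -/
theorem del_bb_one {θ : Par} (hθ : Good θ) {n : ℕ} (hn : 3 ≤ n) {w : ℕ → Bool}
    (h1 : w (n - 1) = true) (h2 : w (n - 2) = true) :
    Lv θ 1 n w - Lv θ 1 (n - 1) w ≤ -θ.d := by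
  obtain ⟨x, hx⟩ := exists_sol hθ 1 n (by omega) w
  obtain ⟨x', hx'⟩ := exists_sol hθ 1 (n - 1) (by omega) w
  have hcost := cost_diff hθ (by omega) hx hx'
  obtain ⟨k, hk, hmax⟩ := Finset.exists_max_image (Finset.range (n - 1)) (fun i => ee x x' i)
    ⟨0, by simp; omega⟩
  rw [Finset.mem_range] at hk
  have e1 : x (n - 1) = phi θ true (x (n - 2)) := by
    have := hx.2 (n - 2) (by omega)
    rw [show n - 2 + 1 = n - 1 by omega, Nat.mod_eq_of_lt (by omega), h2] at this
    exact this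
  have e2 : x 0 = phi θ true (x (n - 1)) := by
    have := hx.2 (n - 1) (by omega)
    rw [show n - 1 + 1 = n by omega, Nat.mod_self, h1] at this
    exact this
  have e3 : x' 0 = phi θ true (x' (n - 2)) := by
    have := hx'.2 (n - 2) (by omega)
    rw [show n - 2 + 1 = n - 1 by omega, Nat.mod_self, h2] at this
    exact this
  have b1 := hx.1 (n - 1) (by omega)
  have b2 := hx.1 (n - 2) (by omega)
  have b3 := hx'.1 (n - 2) (by omega)
  have hM : ee x x' k ≤ ee x x' k / 25 := by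
    rcases Nat.eq_zero_or_pos k with rfl | hk0
    · have h3 := phi_lip hθ true b2.1 b2.2 b3.1 b3.2 (ee_nonneg x x' (n - 2)) (le_ee x x' (n - 2))
      have h4 := hmax (n - 2) (by simp; omega)
      have h5 : x (n - 2) ≤ x (n - 1) := by
        rw [e1]; exact le_phi_b hθ (by omega) hx (by omega)
      have h6 := phi_mono hθ true b1.1 b1.2 b2.1 b2.2 h5
      refine ee_le (by have := ee_nonneg x x' 0; positivity) ?_
      rw [e2, e3]
      linarith
    · have h3 := ee_step hθ hx hx' (i := k - 1) (by omega)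
      rw [show k - 1 + 1 = k by omega] at h3
      have h4 := hmax (k - 1) (by simp; omega)
      linarith
  have hk0 : ee x x' k = 0 := by
    have := ee_nonneg x x' k
    linarith
  have hzero : ∀ i ∈ Finset.range (n - 1), (if w i then ee x x' i else 0) = 0 := by
    intro i hi
    have h3 := hmax i hi
    rw [hk0] at h3
    have h4 := ee_nonneg x x' i
    split_ifs
    · linarith
    · rfl
  rw [Finset.sum_eq_zero hzero, h1] at hcost
  simp only [if_true, mul_zero] at hcost
  have h7 := phi_b_ge hθ b2.1 b2.2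
  rw [← e1] at h7
  linarith

/-- deletion of a b after an a, lag one -/
theorem del_ab_one {θ : Par} (hθ : Good θ) {n : ℕ} (hn : 3 ≤ n) {w : ℕ → Bool}
    (h1 : w (n - 1) = true) (h2 : w (n - 2) = false) :
    Lv θ 1 n w - Lv θ 1 (n - 1) w ≤ 0 := by
  obtain ⟨x, hx⟩ := exists_sol hθ 1 n (by omega) w
  obtain ⟨x', hx'⟩ := exists_sol hθ 1 (n - 1) (by omega) w
  have hcost := cost_diff hθ (by omega) hx hx'
  have e2 : x 0 = phi θ true (x (n - 1)) := by
    have := hx.2 (n - 1) (by omega)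
    rw [show n - 1 + 1 = n by omega, Nat.mod_self, h1] at this
    exact this
  have e3 : x' 0 = θ.R * (x' (n - 2)) := by
    have := hx'.2 (n - 2) (by omega)
    rw [show n - 2 + 1 = n - 1 by omega, Nat.mod_self, h2] at this
    simpa [phi] using this
  have b1 := hx.1 (n - 1) (by omega)
  have b3 := hx'.1 (n - 2) (by omega)
  have c3 := sol_le hθ (by omega) hx' (n - 2) (by omega)
  have h7 := phi_b_ge hθ b1.1 b1.2
  have hz : ∀ i, i < n - 1 → ee x x' i ≤ 0 := by
    intro i
    induction i with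
    | zero =>
      intro _
      refine ee_le le_rfl ?_
      rw [e2, e3]
      have := hθ.R1
      have := hθ.R0
      have := hθ.d0
      nlinarith
    | succ i ih =>
      intro hi
      have h3 := ee_step hθ hx hx' hi
      have h4 := ih (by omega)
      linarith
  have hzero : ∀ i ∈ Finset.range (n - 1), (if w i then ee x x' i else 0) = 0 := by
    intro i hi
    rw [Finset.mem_range] at hi
    have h3 := hz i hi
    have h4 := ee_nonneg x x' i
    split_ifs
    · linarith
    · rfl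
  rw [Finset.sum_eq_zero hzero, h1] at hcost
  simp only [if_true, mul_zero] at hcost
  linarith [b1.1]

theorem sum_if_le (e : ℕ → ℝ) (he : ∀ i, 0 ≤ e i) (w : ℕ → Bool) (N : ℕ) :
    ∑ i ∈ Finset.range N, (if w i then e i else 0) ≤ ∑ i ∈ Finset.Ico 0 N, e i := by
  rw [Finset.range_eq_Ico]
  refine Finset.sum_le_sum fun i _ => ?_
  split_ifs
  · exact le_rfl
  · exact he i

theorem sum_if_le' (e : ℕ → ℝ) (he : ∀ i, 0 ≤ e i) (w : ℕ → Bool) (hw : w 0 = false) (N : ℕ)
    (hN : 0 < N) :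
    ∑ i ∈ Finset.range N, (if w i then e i else 0) ≤ ∑ i ∈ Finset.Ico 1 N, e i := by
  rw [Finset.range_eq_Ico, Finset.sum_eq_sum_Ico_succ_bot hN, hw]
  simp only [Bool.false_eq_true, if_false, zero_add]
  refine Finset.sum_le_sum fun i _ => ?_
  split_ifs
  · exact le_rfl
  · exact he i

/-- deletion of an a in aaaa, lag one -/
theorem del_aaaa_one {θ : Par} (hθ : Good θ) {n : ℕ} (hn : 5 ≤ n) {w : ℕ → Bool}
    (h1 : w (n - 1) = false) (h2 : w (n - 2) = false) (h3 : w (n - 3) = false)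
    (h4 : w (n - 4) = false) :
    Lv θ 1 n w - Lv θ 1 (n - 1) w ≤ 2 * θ.R ^ 3 * θ.d := by
  obtain ⟨x, hx⟩ := exists_sol hθ 1 n (by omega) w
  obtain ⟨x', hx'⟩ := exists_sol hθ 1 (n - 1) (by omega) w
  have hcost := cost_diff hθ (by omega) hx hx'
  have e2 : x' 0 = θ.R * (x' (n - 2)) := by
    have := hx'.2 (n - 2) (by omega)
    rw [show n - 2 + 1 = n - 1 by omega, Nat.mod_self, h2] at this
    simpa [phi] using this
  have e3 : x' (n - 2) = θ.R * (x' (n - 3)) := by
    have := hx'.2 (n - 3) (by omega)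
    rw [show n - 3 + 1 = n - 2 by omega, Nat.mod_eq_of_lt (by omega), h3] at this
    simpa [phi] using this
  have e4 : x' (n - 3) = θ.R * (x' (n - 4)) := by
    have := hx'.2 (n - 4) (by omega)
    rw [show n - 4 + 1 = n - 3 by omega, Nat.mod_eq_of_lt (by omega), h4] at this
    simpa [phi] using this
  have c3 := sol_le hθ (by omega) hx' (n - 4) (by omega)
  have b0 := hx.1 0 (by omega)
  obtain ⟨R0, d0, t0, R1, d1, t1⟩ := id hθ
  have h5 : x' 0 ≤ 51 / 50 * (θ.R ^ 3 * θ.d) := by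
    rw [e2, e3, e4]
    have : θ.R * (θ.R * (θ.R * x' (n - 4))) = θ.R ^ 3 * x' (n - 4) := by ring
    rw [this]
    have hR3 : 0 < θ.R ^ 3 := by positivity
    nlinarith
  have h6 : ee x x' 0 ≤ 51 / 50 * (θ.R ^ 3 * θ.d) := ee_le (by positivity) (by linarith)
  have h7 := sum_if_le (ee x x') (ee_nonneg x x') w (n - 1)
  have h8 := sum_geo (ee x x') (ee_nonneg x x') 0 1 (n - 1) (by omega)
    (fun i _ hi => ee_step hθ hx hx' hi)
  have h10 : ∑ i ∈ Finset.Ico 0 (0 + 1), ee x x' i = ee x x' 0 := by simp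
  rw [h10] at h8
  rw [h1] at hcost
  simp only [Bool.false_eq_true, if_false, sub_zero] at hcost
  have h9 : 0 < θ.R ^ 3 * θ.d := by positivity
  linarith

theorem three_sum (e : ℕ → ℝ) (a : ℕ) :
    ∑ i ∈ Finset.Ico a (a + 3), e i = e a + e (a + 1) + e (a + 2) := by
  rw [Finset.sum_Ico_eq_sum_range, show a + 3 - a = 3 by omega]
  simp [Finset.sum_range_succ]

/-- deletion of any letter, lag three, crude -/
theorem del_three {θ : Par} (hθ : Good θ) {n : ℕ} (hn : 5 ≤ n) (w : ℕ → Bool) :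
    Lv θ 3 n w - Lv θ 3 (n - 1) w ≤ 7 / 2 * θ.d := by
  obtain ⟨x, hx⟩ := exists_sol hθ 3 n (by omega) w
  obtain ⟨x', hx'⟩ := exists_sol hθ 3 (n - 1) (by omega) w
  have hcost := cost_diff hθ (by omega) hx hx'
  obtain ⟨R0, d0, t0, R1, d1, t1⟩ := id hθ
  have hb : ∀ i, i < n - 1 → ee x x' i ≤ 51 / 50 * θ.d := by
    intro i hi
    have := sol_le hθ (by omega) hx' i hi
    have := (hx.1 i (by omega)).1
    exact ee_le (by positivity) (by linarith)
  have h7 := sum_if_le (ee x x') (ee_nonneg x x') w (n - 1)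
  have h8 := sum_geo (ee x x') (ee_nonneg x x') 0 3 (n - 1) (by omega)
    (fun i _ hi => ee_step hθ hx hx' hi)
  rw [three_sum] at h8
  have k0 := hb 0 (by omega)
  have k1 := hb 1 (by omega)
  have k2 := hb 2 (by omega)
  have h9 : 0 ≤ (if w (n - 1) then x (n - 1) else 0) := by
    split_ifs
    · exact (hx.1 _ (by omega)).1
    · exact le_rfl
  simp only [zero_add] at h8
  linarith

/-- deletion of an a in aaaa, lag three -/
theorem del_aaaa_three {θ : Par} (hθ : Good θ) {n : ℕ} (hn : 5 ≤ n) {w : ℕ → Bool}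
    (h1 : w (n - 1) = false) (h2 : w (n - 2) = false) (h3 : w (n - 3) = false)
    (h4 : w (n - 4) = false) :
    Lv θ 3 n w - Lv θ 3 (n - 1) w ≤ 4 * θ.R * θ.d := by
  obtain ⟨x, hx⟩ := exists_sol hθ 3 n (by omega) w
  obtain ⟨x', hx'⟩ := exists_sol hθ 3 (n - 1) (by omega) w
  have hcost := cost_diff hθ (by omega) hx hx'
  obtain ⟨R0, d0, t0, R1, d1, t1⟩ := id hθ
  have hb : ∀ i j, i < n - 1 → j < n - 1 → x' i = θ.R * x' j → ee x x' i ≤ 51 / 50 * (θ.R * θ.d) := by
    intro i j hi hj hij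
    have := sol_le hθ (by omega) hx' j hj
    have := (hx.1 i (by omega)).1
    refine ee_le (by positivity) ?_
    rw [hij]
    nlinarith
  have e0 : x' 0 = θ.R * x' (n - 4) := by
    have := hx'.2 (n - 4) (by omega)
    rw [show n - 4 + 3 = n - 1 by omega, Nat.mod_self, h4] at this
    simpa [phi] using this
  have e1 : x' 1 = θ.R * x' (n - 3) := by
    have := hx'.2 (n - 3) (by omega)
    rw [show n - 3 + 3 = (n - 1) + 1 by omega, Nat.add_mod_left, Nat.mod_eq_of_lt (by omega), h3]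
      at this
    simpa [phi] using this
  have e2 : x' 2 = θ.R * x' (n - 2) := by
    have := hx'.2 (n - 2) (by omega)
    rw [show n - 2 + 3 = (n - 1) + 2 by omega, Nat.add_mod_left, Nat.mod_eq_of_lt (by omega), h2]
      at this
    simpa [phi] using this
  have h7 := sum_if_le (ee x x') (ee_nonneg x x') w (n - 1)
  have h8 := sum_geo (ee x x') (ee_nonneg x x') 0 3 (n - 1) (by omega)
    (fun i _ hi => ee_step hθ hx hx' hi)
  rw [three_sum] at h8
  have k0 := hb 0 _ (by omega) (by omega) e0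
  have k1 := hb 1 _ (by omega) (by omega) e1
  have k2 := hb 2 _ (by omega) (by omega) e2
  rw [h1] at hcost
  simp only [Bool.false_eq_true, if_false, sub_zero] at hcost
  simp only [zero_add] at h8
  have h9 : 0 < θ.R * θ.d := by positivity
  linarith

/-- deletion of a b with gap two, lag three -/
theorem del_baab_three {θ : Par} (hθ : Good θ) {n : ℕ} (hn : 5 ≤ n) {w : ℕ → Bool}
    (h1 : w (n - 1) = true) (h2 : w (n - 2) = false) (h3 : w (n - 3) = false)
    (h4 : w (n - 4) = true) (h0 : w 0 = false) :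
    Lv θ 3 n w - Lv θ 3 (n - 1) w ≤ 3 * θ.R * θ.d - θ.d := by
  obtain ⟨x, hx⟩ := exists_sol hθ 3 n (by omega) w
  obtain ⟨x', hx'⟩ := exists_sol hθ 3 (n - 1) (by omega) w
  have hcost := cost_diff hθ (by omega) hx hx'
  obtain ⟨R0, d0, t0, R1, d1, t1⟩ := id hθ
  have hn5 : 5 ≤ n - 1 ∨ n = 5 := by omega
  have hb : ∀ i j, i < n - 1 → j < n - 1 → x' i = θ.R * x' j → ee x x' i ≤ 51 / 50 * (θ.R * θ.d) := by
    intro i j hi hj hij
    have := sol_le hθ (by omega) hx' j hj
    have := (hx.1 i (by omega)).1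
    refine ee_le (by positivity) ?_
    rw [hij]
    nlinarith
  have e1 : x' 1 = θ.R * x' (n - 3) := by
    have := hx'.2 (n - 3) (by omega)
    rw [show n - 3 + 3 = (n - 1) + 1 by omega, Nat.add_mod_left, Nat.mod_eq_of_lt (by omega), h3]
      at this
    simpa [phi] using this
  have e2 : x' 2 = θ.R * x' (n - 2) := by
    have := hx'.2 (n - 2) (by omega)
    rw [show n - 2 + 3 = (n - 1) + 2 by omega, Nat.add_mod_left, Nat.mod_eq_of_lt (by omega), h2]
      at this
    simpa [phi] using this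
  have e3 : x' 3 = θ.R * x' 0 := by
    have := hx'.2 0 (by omega)
    rw [show 0 + 3 = 3 by omega, Nat.mod_eq_of_lt (by omega), h0] at this
    simpa [phi] using this
  have f2 : x 2 = phi θ true (x (n - 1)) := by
    have := hx.2 (n - 1) (by omega)
    rw [show n - 1 + 3 = n + 2 by omega, Nat.add_mod_left, Nat.mod_eq_of_lt (by omega), h1] at this
    exact this
  have f1 : x (n - 1) = phi θ true (x (n - 4)) := by
    have := hx.2 (n - 4) (by omega)
    rw [show n - 4 + 3 = n - 1 by omega, Nat.mod_eq_of_lt (by omega), h4] at this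
    exact this
  have b1 := hx.1 (n - 1) (by omega)
  have b4 := hx.1 (n - 4) (by omega)
  have g1 := phi_b_ge hθ b1.1 b1.2
  have g4 := phi_b_ge hθ b4.1 b4.2
  rw [← f2] at g1
  rw [← f1] at g4
  have k1 := hb 1 _ (by omega) (by omega) e1
  have k3 := hb 3 _ (by omega) (by omega) e3
  have k2 : ee x x' 2 ≤ 0 := by
    refine ee_le le_rfl ?_
    have := sol_le hθ (by omega) hx' (n - 2) (by omega)
    rw [e2]
    nlinarith
  have h7 := sum_if_le' (ee x x') (ee_nonneg x x') w h0 (n - 1) (by omega)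
  have h8 := sum_geo (ee x x') (ee_nonneg x x') 1 3 (n - 1) (by omega)
    (fun i _ hi => ee_step hθ hx hx' hi)
  rw [three_sum] at h8
  rw [h1] at hcost
  simp only [if_true] at hcost
  norm_num at h8
  have h9 : 0 < θ.R * θ.d := by positivity
  linarith

end FBP46
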