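import Pool.Agent.FBP46.SigRel
import Pool.Agent.FBP46.Cone

set_option autoImplicit false

namespace FBP46

theorem cnt_sig_false (n : ℕ) (w : ℕ → Bool) : cnt false (2 * n) (sig w) = n + cnt true n w := by
  unfold cnt
  rw [sum_two_mul]
  simp only [sig_even, sig_odd]
  rw [Finset.sum_add_distrib]
  simp

theorem cnt_sig_true (n : ℕ) (w : ℕ → Bool) : cnt true (2 * n) (sig w) = cnt false n w := by
  unfold cnt
  rw [sum_two_mul]
  simp only [sig_even, sig_odd]
  rw [Finset.sum_add_distrib]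
  simp

noncomputable def lA (R r : ℝ) : ℝ := Real.log ((1 - R ^ 2) / (1 + r))
noncomputable def lB (R r : ℝ) : ℝ := Real.log ((1 + R ^ 2) / (1 - r))

/-- the part of the functional without the constant -/
noncomputable def GG (R t r Q k q : ℝ) (n : ℕ) (w : ℕ → Bool) : ℝ :=
  cnt true n w * ((lB R r - lA R r) + (lB Q q - lA Q q)) + Lv (red R t) 1 n w +
    Lv (red r (tp R r)) 1 n w + Lv (red Q k) 3 n w + Lv (red q (tp Q q)) 3 n w

theorem F_eq {R t r Q k q : ℝ} (H : StepR R t r) (H' : StepR Q k q) (n : ℕ) (hn : 0 < n)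
    (w : ℕ → Bool) :
    F (red R t) (red Q k) n w = n * (lA R r + lA Q q) + GG R t r Q k q n w := by
  have h1 := sigma_rel H 0 n hn w
  have h3 := sigma_rel H' 1 n hn w
  have h5 := cnt_add n w
  simp only [mul_zero, zero_add, mul_one] at h1 h3
  norm_num at h3
  unfold F GG
  rw [h1, h3]
  unfold lA lB
  have h6 : cnt false n w = n - cnt true n w := by linarith
  rw [h6]
  ring

theorem F_sig {R t r Q k q : ℝ} (H : StepR R t r) (H' : StepR Q k q) (n : ℕ) (hn : 0 < n)
    (w : ℕ → Bool) :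
    F (red R t) (red Q k) (2 * n) (sig w) = F (red r (tp R r)) (red q (tp Q q)) n w +
      n * (2 * lA R r + lB R r + (2 * lA Q q + lB Q q)) := by
  have h1 := sigma_rel H 0 n hn w
  have h2 := sigma_rel H 0 (2 * n) (by omega) (sig w)
  have h3 := sigma_rel H' 1 n hn w
  have h4 := sigma_rel H' 1 (2 * n) (by omega) (sig w)
  have h5 := cnt_add n w
  simp only [mul_zero, zero_add, mul_one] at h1 h2 h3 h4
  norm_num at h3 h4
  unfold F
  rw [h1, h2, h3, h4, cnt_sig_false, cnt_sig_true]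
  unfold lA lB
  have h6 : cnt false n w = n - cnt true n w := by linarith
  rw [h6]
  ring

structure Inv (R t Q k : ℝ) : Prop where
  R0 : 0 < R
  t0 : 0 < t
  Q0 : 0 < Q
  k0 : 0 < k
  R1 : R ≤ 1 / 100
  t1 : t ≤ 1 / 100
  QR : 10 * Q ≤ R
  kt : 10 * k ≤ t
  RtQ : 3 * (R * t) ≤ Q
  RRk : 3 * R ^ 2 ≤ k

theorem Inv.step {R t Q k r q : ℝ} (I : Inv R t Q k) (H : StepR R t r) (H' : StepR Q k q) :
    Inv r (tp R r) q (tp Q q) := by
  obtain ⟨R0, t0, Q0, k0, R1, t1, QR, kt, RtQ, RRk⟩ := I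
  have hr1 := H.r1
  have hrl := H.lo
  have hrh := H.hi
  have hql := H'.lo
  have hqh := H'.hi
  have a1 := H.tp_le
  have a2 := H.tp_ge
  have b1 := H'.tp_le
  have b2 := H'.tp_ge
  have hRt : 0 < R * t := mul_pos R0 t0
  have hQk : Q * k ≤ R / 10 * (t / 10) :=
    mul_le_mul (by linarith) (by linarith) k0.le (by positivity)
  have hQk2 : (3 * (R * t)) * (3 * R ^ 2) ≤ Q * k := mul_le_mul RtQ RRk (by positivity) Q0.le
  have hQ2 : Q ^ 2 ≤ (R / 10) ^ 2 := pow_le_pow_left₀ Q0.le (by linarith) 2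
  have hQ3 : (3 * (R * t)) ^ 2 ≤ Q ^ 2 := pow_le_pow_left₀ (by positivity) RtQ 2
  refine ⟨H.r0, H.tp_pos, H'.r0, H'.tp_pos, by linarith, ?_, ?_, ?_, ?_, ?_⟩
  · nlinarith
  · nlinarith
  · nlinarith
  · have : r * tp R r ≤ 1001 / 1000 * (R * t) * R ^ 2 :=
      mul_le_mul hrh a1 H.tp_pos.le (by positivity)
    have h3 : 0 < R * t * R ^ 2 := by positivity
    nlinarith
  · have : r ^ 2 ≤ (1001 / 1000 * (R * t)) ^ 2 := pow_le_pow_left₀ H.r0.le hrh 2
    have h3 : 0 < (R * t) ^ 2 := by positivity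
    nlinarith

theorem lB_ge {R t r : ℝ} (H : StepR R t r) : 998 / 1000 * (R * (R + t)) ≤ lB R r := by
  have hR := H.R0; have hr := H.r0; have hR1 := H.R1; have hr1 := H.r1; have hlo := H.lo
  have hr2 : 0 < 1 - r := by linarith
  have h1 : 0 < (1 + R ^ 2) / (1 - r) := by positivity
  have h2 := Real.one_sub_inv_le_log_of_pos h1
  have h3 : 1 - ((1 + R ^ 2) / (1 - r))⁻¹ = (R ^ 2 + r) / (1 + R ^ 2) := by
    field_simp; ring
  rw [h3] at h2
  refine le_trans ?_ h2
  rw [le_div_iff₀ (by positivity)]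
  have h4 : R ^ 2 ≤ 1 / 10000 := by nlinarith
  have h5 : 0 < R * (R + t) := by
    have := H.t0
    positivity
  have h6 : R * (R + t) ≤ R ^ 2 + r := by nlinarith
  nlinarith

theorem eta_le {R t r : ℝ} (H : StepR R t r) : lB R r - lA R r ≤ 21 / 10 * (R * (R + t)) := by
  have hR := H.R0; have hr := H.r0; have hR1 := H.R1; have hr1 := H.r1; have hhi := H.hi
  have ht := H.t0
  have hr2 : 0 < 1 - r := by linarith
  have hR2 : 0 < 1 - R ^ 2 := by nlinarith
  have h4 : R ^ 2 ≤ 1 / 10000 := by nlinarith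
  have h5 : 0 < R * (R + t) := by positivity
  have h6 : R ^ 2 + r ≤ 1001 / 1000 * (R * (R + t)) := by nlinarith
  have h1 : lB R r ≤ 21 / 20 * (R * (R + t)) := by
    have h2 := Real.log_le_sub_one_of_pos (x := (1 + R ^ 2) / (1 - r)) (by positivity)
    have h3 : (1 + R ^ 2) / (1 - r) - 1 = (R ^ 2 + r) / (1 - r) := by field_simp; ring
    rw [h3] at h2
    refine h2.trans ?_
    rw [div_le_iff₀ hr2]
    nlinarith
  have h7 : -lA R r ≤ 21 / 20 * (R * (R + t)) := by
    have h2 := Real.log_le_sub_one_of_pos (x := (1 + r) / (1 - R ^ 2)) (by positivity)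
    have h3 : (1 + r) / (1 - R ^ 2) - 1 = (R ^ 2 + r) / (1 - R ^ 2) := by field_simp; ring
    rw [h3] at h2
    have h8 : lA R r = -Real.log ((1 + r) / (1 - R ^ 2)) := by
      unfold lA
      rw [← Real.log_inv, inv_div]
    rw [h8, neg_neg]
    refine h2.trans ?_
    rw [div_le_iff₀ hR2]
    nlinarith
  linarith

/-- the word ab -/
def wab : ℕ → Bool := sig (fun _ => false)

theorem Lv_ab_ge {θ : Par} (hθ : Good θ) (e : ℕ) : -(11 / 10 * (θ.R * θ.d)) ≤ Lv θ (2 * e + 1) 2 wab := by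
  obtain ⟨x, hx⟩ := exists_sol hθ (2 * e + 1) 2 (by omega) wab
  rw [Lv_eq hθ (by omega) hx]
  have w0 : wab 0 = false := by simp [wab, sig]
  have w1 : wab 1 = true := by simp [wab, sig]
  have h0 := hx.2 0 (by omega)
  rw [w0, show (0 + (2 * e + 1)) % 2 = 1 by omega] at h0
  simp only [phi, Bool.false_eq_true, if_false] at h0
  have b0 := hx.1 0 (by omega)
  have b1 := hx.1 1 (by omega)
  have c0 := sol_le hθ (by omega) hx 0 (by omega)
  have hR0 := hθ.R0; have hR1 := hθ.R1; have hd0 := hθ.d0; have hd1 := hθ.d1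
  simp only [Finset.sum_range_succ, Finset.range_zero, Finset.sum_empty, w0, w1, if_true,
    Bool.false_eq_true, if_false, zero_add]
  have h1 : x 1 ≤ 51 / 50 * (θ.R * θ.d) := by rw [h0]; nlinarith
  have hRd : θ.R * θ.d ≤ 1 / 100 * (1 / 50) := mul_le_mul hR1 hd1 hd0.le (by norm_num)
  have hpos : 0 < 1 - x 1 := by linarith
  have h2 := Real.one_sub_inv_le_log_of_pos hpos
  have h3 : 1 - (1 - x 1)⁻¹ = -(x 1 / (1 - x 1)) := by field_simp; ring
  rw [h3] at h2
  refine le_trans ?_ h2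
  apply neg_le_neg
  rw [div_le_iff₀ hpos]
  have : 0 < θ.R * θ.d := by positivity
  nlinarith

theorem F_ab {R t r Q k q : ℝ} (_I : Inv R t Q k) (H : StepR R t r) (H' : StepR Q k q) :
    2 * (lA R r + lA Q q) + 9 / 10 * (R * (R + t)) ≤ F (red R t) (red Q k) 2 wab := by
  have h := F_sig H H' 1 one_pos (fun _ => false)
  simp only [mul_one] at h
  unfold wab
  rw [h]
  unfold F
  have hz : ∀ (θ : Par) (l : ℕ), Good θ → Lv θ l 1 (fun _ => false) = 0 := by
    intro θ l hθ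
    obtain ⟨x, hx⟩ := exists_sol hθ l 1 one_pos (fun _ => false)
    rw [Lv_eq hθ one_pos hx]
    simp
  rw [hz _ _ H.good', hz _ _ H'.good']
  have h1 : -(11 / 10 * (r * (r + tp R r))) ≤ Lv (red r (tp R r)) 1 2 (sig fun _ => false) :=
    Lv_ab_ge H.good' 0
  have h3 : -(11 / 10 * (q * (q + tp Q q))) ≤ Lv (red q (tp Q q)) 3 2 (sig fun _ => false) :=
    Lv_ab_ge H'.good' 1
  have e1 := lB_ge H
  have e2 := lB_ge H'
  have a1 := H.tp_le
  have b1 := H'.tp_le
  have hr1 := H.r1; have hq1 := H'.r1; have hhi := H.hi; have hhi' := H'.hi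
  have hr0 := H.r0; have hq0 := H'.r0
  have hR := H.R0; have ht := H.t0; have hQ := H'.R0; have hk := H'.t0
  have hRd : 0 < R * (R + t) := by positivity
  have hQd : 0 < Q * (Q + k) := by positivity
  have k1 : r + tp R r ≤ 1001 / 1000 * (R * (R + t)) := by nlinarith
  have k2 : q + tp Q q ≤ 1001 / 1000 * (Q * (Q + k)) := by nlinarith
  have m1 : r * (r + tp R r) ≤ 11 / 100000 * (1001 / 1000 * (R * (R + t))) :=
    mul_le_mul hr1 k1 (by have := H.tp_pos; positivity) (by norm_num)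
  have m2 : q * (q + tp Q q) ≤ 11 / 100000 * (1001 / 1000 * (Q * (Q + k))) :=
    mul_le_mul hq1 k2 (by have := H'.tp_pos; positivity) (by norm_num)
  norm_num
  linarith

end FBP46
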