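import Pool.Agent.FBP46.Func
import Pool.Agent.FBP46.Del
import Pool.Agent.FBP46.Assembly

set_option autoImplicit false

namespace FBP46

/-- optimal words -/
def Opt (θ θ' : Par) (n : ℕ) (w : ℕ → Bool) : Prop :=
  0 < n ∧ ∀ m, 0 < m → ∀ v : ℕ → Bool, F θ θ' m v * n ≤ F θ θ' n w * m

section
variable {R t r Q k q : ℝ}

theorem GG_rot (H : StepR R t r) (H' : StepR Q k q) {n : ℕ} (hn : 0 < n) (w : ℕ → Bool) (s : ℕ) :
    GG R t r Q k q n (fun i => w ((i + s) % n)) = GG R t r Q k q n w := by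
  unfold GG
  rw [cnt_rot _ _ hn, Lv_rot H.good hn, Lv_rot H.good' hn, Lv_rot H'.good hn, Lv_rot H'.good' hn]

theorem cnt_pow (b : Bool) (n N : ℕ) (w : ℕ → Bool) :
    cnt b (N * n) (fun i => w (i % n)) = N * cnt b n w :=
  sum_pow n N (fun i => if w i = b then 1 else 0)

theorem GG_pow (H : StepR R t r) (H' : StepR Q k q) {n N : ℕ} (hn : 0 < n) (hN : 0 < N)
    (w : ℕ → Bool) :
    GG R t r Q k q (N * n) (fun i => w (i % n)) = N * GG R t r Q k q n w := by
  unfold GG
  rw [cnt_pow, Lv_pow H.good hn hN, Lv_pow H.good' hn hN, Lv_pow H'.good hn hN,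
    Lv_pow H'.good' hn hN]
  ring

theorem F_rot (H : StepR R t r) (H' : StepR Q k q) {n : ℕ} (hn : 0 < n) (w : ℕ → Bool) (s : ℕ) :
    F (red R t) (red Q k) n (fun i => w ((i + s) % n)) = F (red R t) (red Q k) n w := by
  rw [F_eq H H' n hn, F_eq H H' n hn, GG_rot H H' hn]

/-- rotated powers of an optimal word are optimal -/
theorem opt_pow_rot (H : StepR R t r) (H' : StepR Q k q) {n : ℕ} {w : ℕ → Bool}
    (h : Opt (red R t) (red Q k) n w) (s : ℕ) :
    Opt (red R t) (red Q k) (8 * n) (fun i => w ((i + s) % n)) := by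
  obtain ⟨hn, h⟩ := h
  refine ⟨by omega, fun m hm v => ?_⟩
  have h1 : F (red R t) (red Q k) (8 * n) (fun i => w ((i + s) % n)) =
      8 * F (red R t) (red Q k) n w := by
    have e : (fun i => w ((i + s) % n)) = (fun i => (fun j => w (j % n)) ((i + s) % (8 * n))) := by
      funext i
      simp only
      rw [Nat.mod_mod_of_dvd _ (Dvd.intro_left 8 rfl)]
    rw [e, F_rot H H' (by omega : 0 < 8 * n) (fun j => w (j % n)) s, F_eq H H' (8 * n) (by omega),
      GG_pow H H' hn (by norm_num), F_eq H H' n hn]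
    push_cast
    ring
  rw [h1]
  push_cast
  have := h m hm v
  linarith

/-- the deletion inequality of optimal words -/
theorem opt_del (I : Inv R t Q k) (H : StepR R t r) (H' : StepR Q k q) {n : ℕ} {w : ℕ → Bool}
    (hn : 2 ≤ n) (h : Opt (red R t) (red Q k) n w) :
    9 / 20 * (R * (R + t)) ≤ GG R t r Q k q n w - GG R t r Q k q (n - 1) w := by
  obtain ⟨hn0, h⟩ := h
  have h1 := h 2 (by norm_num) wab
  have h2 := h (n - 1) (by omega) w
  have h3 := F_ab I H H'
  rw [F_eq H H' n hn0] at h1 h2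
  rw [F_eq H H' (n - 1) (by omega)] at h2
  have hc : ((n - 1 : ℕ) : ℝ) = (n : ℝ) - 1 := by
    rw [Nat.cast_sub (by omega)]; norm_num
  rw [hc] at h2
  push_cast at h1
  set c := lA R r + lA Q q
  set g := GG R t r Q k q n w
  set g' := GG R t r Q k q (n - 1) w
  set f := F (red R t) (red Q k) 2 wab
  have hnr : (0 : ℝ) < n := by exact_mod_cast hn0
  set d := R * (R + t)
  -- f * n ≤ (n c + g) * 2 ; ((n-1) c + g') n ≤ (n c + g)(n-1)
  have h4 : (2 * c + 9 / 10 * d) * n ≤ (n * c + g) * 2 :=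
    le_trans (mul_le_mul_of_nonneg_right h3 hnr.le) h1
  have h5 : 9 / 20 * d * n ≤ g := by linarith
  have h6 : g' * n ≤ g * n - g := by nlinarith
  have h7 : 9 / 20 * d * n ≤ (g - g') * n := by linarith
  exact le_of_mul_le_mul_right h7 hnr

theorem cnt_last (b : Bool) {n : ℕ} (hn : 0 < n) (w : ℕ → Bool) :
    cnt b n w = cnt b (n - 1) w + if w (n - 1) = b then 1 else 0 := by
  obtain ⟨m, rfl⟩ : ∃ m, n = m + 1 := ⟨n - 1, by omega⟩
  simp only [cnt, Nat.add_sub_cancel, Finset.sum_range_succ]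

/-- a collection of numerical facts -/
theorem facts (I : Inv R t Q k) (H : StepR R t r) (H' : StepR Q k q) :
    0 < R * (R + t) ∧ (Q + k) ≤ (R + t) / 10 ∧ 3 * (R * (R + t)) ≤ Q + k ∧
    (q + tp Q q) ≤ 1 / 500 * (Q + k) ∧ 0 < q + tp Q q ∧ 0 < r + tp R r ∧
    r + tp R r ≤ 1001 / 1000 * (R * (R + t)) ∧
    lB R r - lA R r + (lB Q q - lA Q q) ≤ 21 / 10 * (R * (R + t)) + 21 / 10 * (Q * (Q + k)) := by
  obtain ⟨R0, t0, Q0, k0, R1, t1, QR, kt, RtQ, RRk⟩ := id I
  have e1 := eta_le H
  have e2 := eta_le H'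
  have a1 := H.tp_le
  have b1 := H'.tp_le
  have hhi := H.hi; have hhi' := H'.hi
  have ht := H.tp_pos; have ht' := H'.tp_pos
  have hr := H.r0; have hq := H'.r0
  refine ⟨by positivity, by linarith, by nlinarith, ?_, by positivity, by positivity, by nlinarith,
    by linarith⟩
  have h1 : Q ≤ 1 / 1000 := by linarith
  have h2 : q + tp Q q ≤ 1001 / 1000 * (Q * (Q + k)) := by nlinarith
  have h3 : Q * (Q + k) ≤ 1 / 1000 * (Q + k) := mul_le_mul_of_nonneg_right h1 (by positivity)
  linarith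

theorem no_bb (I : Inv R t Q k) (H : StepR R t r) (H' : StepR Q k q) {n : ℕ} {w : ℕ → Bool}
    (hn : 8 ≤ n) (h : Opt (red R t) (red Q k) n w) :
    ¬ (w (n - 1) = true ∧ w (n - 2) = true) := by
  rintro ⟨h1, h2⟩
  have hd := opt_del I H H' (by omega) h
  obtain ⟨f1, f2, f3, f4, f5, f6, f7, f8⟩ := facts I H H'
  have d1 : Lv (red R t) 1 n w - Lv (red R t) 1 (n - 1) w ≤ -(R + t) :=
    del_bb_one H.good (by omega) h1 h2
  have d2 : Lv (red r (tp R r)) 1 n w - Lv (red r (tp R r)) 1 (n - 1) w ≤ -(r + tp R r) :=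
    del_bb_one H.good' (by omega) h1 h2
  have d3 : Lv (red Q k) 3 n w - Lv (red Q k) 3 (n - 1) w ≤ 7 / 2 * (Q + k) :=
    del_three H'.good (by omega) w
  have d4 : Lv (red q (tp Q q)) 3 n w - Lv (red q (tp Q q)) 3 (n - 1) w ≤ 7 / 2 * (q + tp Q q) :=
    del_three H'.good' (by omega) w
  have hc := cnt_last true (n := n) (by omega) w
  rw [h1, if_pos rfl] at hc
  unfold GG at hd
  rw [hc] at hd
  have hR1 := I.R1; have hR0 := I.R0; have ht0 := I.t0; have hQ0 := I.Q0; have hk0 := I.k0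
  have hQ1 : Q ≤ 1 / 1000 := by linarith [I.QR]
  have g1 : R * (R + t) ≤ 1 / 100 * (R + t) := mul_le_mul_of_nonneg_right hR1 (by positivity)
  have g2 : Q * (Q + k) ≤ 1 / 1000 * (Q + k) := mul_le_mul_of_nonneg_right hQ1 (by positivity)
  set E := lB R r - lA R r + (lB Q q - lA Q q)
  have : 0 < R + t := by positivity
  nlinarith

theorem no_baab (I : Inv R t Q k) (H : StepR R t r) (H' : StepR Q k q) {n : ℕ} {w : ℕ → Bool}
    (hn : 8 ≤ n) (h : Opt (red R t) (red Q k) n w) :
    ¬ (w (n - 1) = true ∧ w (n - 2) = false ∧ w (n - 3) = false ∧ w (n - 4) = true ∧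
      w 0 = false) := by
  rintro ⟨h1, h2, h3, h4, h0⟩
  have hd := opt_del I H H' (by omega) h
  obtain ⟨f1, f2, f3, f4, f5, f6, f7, f8⟩ := facts I H H'
  have d1 : Lv (red R t) 1 n w - Lv (red R t) 1 (n - 1) w ≤ 0 :=
    del_ab_one H.good (by omega) h1 h2
  have d2 : Lv (red r (tp R r)) 1 n w - Lv (red r (tp R r)) 1 (n - 1) w ≤ 0 :=
    del_ab_one H.good' (by omega) h1 h2
  have d3 : Lv (red Q k) 3 n w - Lv (red Q k) 3 (n - 1) w ≤ 3 * Q * (Q + k) - (Q + k) :=
    del_baab_three H'.good (by omega) h1 h2 h3 h4 h0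
  have d4 : Lv (red q (tp Q q)) 3 n w - Lv (red q (tp Q q)) 3 (n - 1) w ≤
      3 * q * (q + tp Q q) - (q + tp Q q) :=
    del_baab_three H'.good' (by omega) h1 h2 h3 h4 h0
  have hc := cnt_last true (n := n) (by omega) w
  rw [h1, if_pos rfl] at hc
  unfold GG at hd
  rw [hc] at hd
  have hQ0 := I.Q0; have hk0 := I.k0
  have hQ1 : Q ≤ 1 / 1000 := by linarith [I.QR, I.R1]
  have g2 : Q * (Q + k) ≤ 1 / 1000 * (Q + k) := mul_le_mul_of_nonneg_right hQ1 (by positivity)
  have hq1 := H'.r1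
  have g3 : q * (q + tp Q q) ≤ 11 / 100000 * (q + tp Q q) :=
    mul_le_mul_of_nonneg_right hq1 f5.le
  set E := lB R r - lA R r + (lB Q q - lA Q q)
  nlinarith

theorem no_aaaa (I : Inv R t Q k) (H : StepR R t r) (H' : StepR Q k q) {n : ℕ} {w : ℕ → Bool}
    (hn : 8 ≤ n) (h : Opt (red R t) (red Q k) n w) :
    ¬ (w (n - 1) = false ∧ w (n - 2) = false ∧ w (n - 3) = false ∧ w (n - 4) = false) := by
  rintro ⟨h1, h2, h3, h4⟩
  have hd := opt_del I H H' (by omega) h
  obtain ⟨f1, f2, f3, f4, f5, f6, f7, f8⟩ := facts I H H'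
  have d1 : Lv (red R t) 1 n w - Lv (red R t) 1 (n - 1) w ≤ 2 * R ^ 3 * (R + t) :=
    del_aaaa_one H.good (by omega) h1 h2 h3 h4
  have d2 : Lv (red r (tp R r)) 1 n w - Lv (red r (tp R r)) 1 (n - 1) w ≤
      2 * r ^ 3 * (r + tp R r) :=
    del_aaaa_one H.good' (by omega) h1 h2 h3 h4
  have d3 : Lv (red Q k) 3 n w - Lv (red Q k) 3 (n - 1) w ≤ 4 * Q * (Q + k) :=
    del_aaaa_three H'.good (by omega) h1 h2 h3 h4
  have d4 : Lv (red q (tp Q q)) 3 n w - Lv (red q (tp Q q)) 3 (n - 1) w ≤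
      4 * q * (q + tp Q q) :=
    del_aaaa_three H'.good' (by omega) h1 h2 h3 h4
  have hc := cnt_last true (n := n) (by omega) w
  rw [h1, if_neg (by decide), add_zero] at hc
  unfold GG at hd
  rw [hc] at hd
  have hR1 := I.R1; have hR0 := I.R0; have ht0 := I.t0
  have hQ0 := I.Q0; have hk0 := I.k0
  have hr1 := H.r1; have hr0 := H.r0; have hq1 := H'.r1; have hq0 := H'.r0
  have g1 : R ^ 3 * (R + t) ≤ 1 / 10000 * (R * (R + t)) := by
    have e : R ^ 3 * (R + t) = R ^ 2 * (R * (R + t)) := by ring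
    rw [e]
    exact mul_le_mul_of_nonneg_right (by nlinarith) f1.le
  have g2 : r ^ 3 * (r + tp R r) ≤ 1 / 10000 * (r + tp R r) := by
    have : r ^ 3 ≤ (1 / 100) ^ 3 := pow_le_pow_left₀ hr0.le (by linarith) 3
    exact mul_le_mul_of_nonneg_right (by norm_num at this ⊢; linarith) f6.le
  have g3 : Q * (Q + k) ≤ R / 10 * ((R + t) / 10) :=
    mul_le_mul (by linarith [I.QR]) f2 (by positivity) (by positivity)
  have g4 : q * (q + tp Q q) ≤ 1 / 1000 * (Q * (Q + k)) := by
    have e1 : q ≤ 1001 / 1000 * (Q * k) := H'.hi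
    have e2 : q + tp Q q ≤ 1 / 500 * (Q + k) := f4
    have e3 : q ≤ 1 / 2 * Q := by
      have := I.kt; have := I.t1
      nlinarith
    have := mul_le_mul e3 e2 f5.le (by positivity)
    linarith
  set E := lB R r - lA R r + (lB Q q - lA Q q)
  nlinarith

end

/-- the combinatorics of the gaps -/
theorem parity (W : ℕ → Bool) (h1 : ∀ p, ¬ (W p = true ∧ W (p + 1) = true))
    (h2 : ∀ p, ¬ (W p = true ∧ W (p + 1) = false ∧ W (p + 2) = false ∧ W (p + 3) = true ∧
      W (p + 4) = false))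
    (h3 : ∀ p, ¬ (W p = false ∧ W (p + 1) = false ∧ W (p + 2) = false ∧ W (p + 3) = false)) :
    ∃ p, W p = true ∧ ∀ j, W (p + 2 * j + 1) = false := by
  have hex : ∃ p, W p = true := by
    by_contra hc
    push Not at hc
    have := h3 0
    simp only [Bool.not_eq_true] at hc
    exact this ⟨hc _, hc _, hc _, hc _⟩
  obtain ⟨p, hp⟩ := hex
  have hT : ∀ j, W (p + 2 * j) = true ∨ (W (p + 2 * j) = false ∧ W (p + 2 * j + 1) = false ∧
      W (p + 2 * j + 2) = true) := by
    intro j
    induction j with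
    | zero => left; simpa using hp
    | succ j ih =>
      rw [show p + 2 * (j + 1) = p + 2 * j + 2 by ring]
      rcases ih with ih | ih
      · have a1 := h1 (p + 2 * j)
        have a2 := h2 (p + 2 * j)
        have a3 := h3 (p + 2 * j + 1)
        have a4 := h1 (p + 2 * j + 3)
        simp only [add_assoc] at a1 a2 a3 a4 ih ⊢
        norm_num at a1 a2 a3 a4 ⊢
        cases c1 : W (p + (2 * j + 1)) <;> cases c2 : W (p + (2 * j + 2)) <;>
          cases c3 : W (p + (2 * j + 3)) <;> cases c4 : W (p + (2 * j + 4)) <;>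
          simp_all
      · left; exact ih.2.2
  refine ⟨p, hp, fun j => ?_⟩
  rcases hT j with h | h
  · have := h1 (p + 2 * j)
    cases c : W (p + 2 * j + 1)
    · rfl
    · exact absurd ⟨h, c⟩ this
  · exact h.2.1

/-- main theorem: no optimal word, by descent -/
theorem no_opt : ∀ (n : ℕ) (R t Q k : ℝ), Inv R t Q k → ∀ w, ¬ Opt (red R t) (red Q k) n w := by
  intro n
  induction n using Nat.strong_induction_on with
  | _ n ih =>
  intro R t Q k I w hopt
  obtain ⟨r, H⟩ := exists_step I.R0 I.t0 I.R1 I.t1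
  obtain ⟨q, H'⟩ := exists_step I.Q0 I.k0 (by linarith [I.QR, I.R1, I.R0]) (by linarith [I.kt, I.t1, I.k0])
  have hn := hopt.1
  have hpr := opt_pow_rot H H' hopt
  let W : ℕ → Bool := fun i => w (i % n)
  have hW : ∀ i j, W (i + 8 * n - j + 0 * j) = W (i + 8 * n - j) := by intro i j; simp
  have hper : ∀ i, W (i + 8 * n) = W i := by
    intro i
    simp only [W]
    rw [Nat.add_mul_mod_self_right]
  obtain ⟨p, hp, hodd⟩ := parity W
    (by
      intro p hc
      refine no_bb I H H' (by omega) (hpr (p + 2)) ⟨?_, ?_⟩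
      · have e := hper (p + 1)
        rw [← hc.2, ← e]
        show w _ = w _
        congr 2
        omega
      · have e := hper p
        rw [← hc.1, ← e]
        show w _ = w _
        congr 2
        omega)
    (by
      intro p hc
      obtain ⟨c0, c1, c2, c3, c4⟩ := hc
      refine no_baab I H H' (by omega) (hpr (p + 4)) ⟨?_, ?_, ?_, ?_, ?_⟩
      · have e := hper (p + 3)
        rw [← c3, ← e]
        show w _ = w _
        congr 2
        omega
      · have e := hper (p + 2)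
        rw [← c2, ← e]
        show w _ = w _
        congr 2
        omega
      · have e := hper (p + 1)
        rw [← c1, ← e]
        show w _ = w _
        congr 2
        omega
      · have e := hper p
        rw [← c0, ← e]
        show w _ = w _
        congr 2
        omega
      · rw [← c4]
        show w _ = w _
        congr 2
        omega)
    (by
      intro p hc
      obtain ⟨c0, c1, c2, c3⟩ := hc
      refine no_aaaa I H H' (by omega) (hpr (p + 4)) ⟨?_, ?_, ?_, ?_⟩
      · have e := hper (p + 3)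
        rw [← c3, ← e]
        show w _ = w _
        congr 2
        omega
      · have e := hper (p + 2)
        rw [← c2, ← e]
        show w _ = w _
        congr 2
        omega
      · have e := hper (p + 1)
        rw [← c1, ← e]
        show w _ = w _
        congr 2
        omega
      · have e := hper p
        rw [← c0, ← e]
        show w _ = w _
        congr 2
        omega)
  -- n is even
  have heven : ∃ m, n = 2 * m := by
    rcases Nat.even_or_odd n with ⟨m, hm⟩ | ⟨m, hm⟩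
    · exact ⟨m, by omega⟩
    · exfalso
      have h1 := hodd m
      rw [show p + 2 * m + 1 = p + n by omega] at h1
      have h2 : W (p + n) = W p := by simp [W]
      rw [h2, hp] at h1
      exact Bool.noConfusion h1
  obtain ⟨m, rfl⟩ := heven
  have hm : 0 < m := by omega
  let v : ℕ → Bool := fun j => !(W (p + 2 * j + 2))
  have hu : (fun i => w ((i + (p + 1)) % (2 * m))) = sig v := by
    funext i
    rcases Nat.even_or_odd' i with ⟨j, rfl | rfl⟩
    · rw [sig_even]
      have := hodd j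
      rw [← this]
      show w _ = w _
      congr 2
      omega
    · rw [sig_odd]
      simp only [v, Bool.not_not]
      show w _ = w _
      congr 2
      omega
  refine ih m (by omega) r (tp R r) q (tp Q q) (I.step H H') v ⟨hm, fun m' hm' v' => ?_⟩
  have h1 := hopt.2 (2 * m') (by omega) (sig v')
  rw [← F_rot H H' hopt.1 w (p + 1), hu, F_sig H H' m' hm', F_sig H H' m hm] at h1
  push_cast at h1
  linarith

theorem main_F : ∀ n, 0 < n → ∀ w : ℕ → Bool, ∃ m, 0 < m ∧ ∃ v : ℕ → Bool,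
    F θ₀ θ₁ n w * m < F θ₀ θ₁ m v * n := by
  intro n hn w
  by_contra hc
  push Not at hc
  have e0 : θ₀ = red (1 / 100) (1 / 100) := by
    unfold θ₀ red
    norm_num
  have e1 : θ₁ = red (1 / 1000) (1 / 1000) := by
    unfold θ₁ red
    norm_num
  refine no_opt n (1 / 100) (1 / 100) (1 / 1000) (1 / 1000) ?_ w ⟨hn, fun m hm v => ?_⟩
  · constructor <;> norm_num
  · rw [← e0, ← e1]
    exact hc m hm v

theorem main :
    ¬ (∀ (n : ℕ) (A : Fin 2 → Matrix (Fin n) (Fin n) ℂ),
    (∀ (i : Fin 2) (a b : Fin n), A i a b = 0 ∨ A i a b = 1) →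
    ∃ (k : ℕ) (w : Fin k → Fin 2), 0 < k ∧
      ∀ (m : ℕ) (v : Fin m → Fin 2), 0 < m →
        spectralRadius ℂ (List.ofFn (fun j => A (v j))).prod ^ k ≤
          spectralRadius ℂ (List.ofFn (fun j => A (w j))).prod ^ m) :=
  frozen_of_F main_F

end FBP46
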