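import Pool.Agent.FBP46.Sol

set_option autoImplicit false

namespace FBP46

theorem sum_rot (n : ℕ) (hn : 0 < n) (r : ℕ) (f : ℕ → ℝ) :
    ∑ i ∈ Finset.range n, f ((i + r) % n) = ∑ i ∈ Finset.range n, f i := by
  refine Finset.sum_bij' (fun i _ => (i + r) % n) (fun j _ => pre r n j) ?_ ?_ ?_ ?_ ?_
  · intro i _; simpa using Nat.mod_lt _ hn
  · intro j _; simpa using pre_lt hn
  · intro i hi; exact add_pre hn (by simpa using hi)
  · intro j hj; exact pre_add hn (by simpa using hj)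
  · intro i _; rfl

theorem sol_rot {θ : Par} {l n : ℕ} (hn : 0 < n) {w : ℕ → Bool} {x : ℕ → ℝ}
    (hx : IsSol θ l n w x) (r : ℕ) :
    IsSol θ l n (fun i => w ((i + r) % n)) (fun i => x ((i + r) % n)) := by
  constructor
  · intro i _
    exact hx.1 _ (Nat.mod_lt _ hn)
  · intro i _
    have h := hx.2 ((i + r) % n) (Nat.mod_lt _ hn)
    simp only
    rw [← h]
    congr 1
    rw [Nat.mod_add_mod, Nat.mod_add_mod]
    congr 1
    ring

theorem Lv_rot {θ : Par} (hθ : Good θ) {l n : ℕ} (hn : 0 < n) (w : ℕ → Bool) (r : ℕ) :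
    Lv θ l n (fun i => w ((i + r) % n)) = Lv θ l n w := by
  obtain ⟨x, hx⟩ := exists_sol hθ l n hn w
  rw [Lv_eq hθ hn hx, Lv_eq hθ hn (sol_rot hn hx r)]
  exact sum_rot n hn r (fun i => if w i then Real.log (1 - x i) else 0)

theorem sum_pow (n N : ℕ) (f : ℕ → ℝ) :
    ∑ i ∈ Finset.range (N * n), f (i % n) = N * ∑ i ∈ Finset.range n, f i := by
  induction N with
  | zero => simp
  | succ N ih =>
    rw [show (N + 1) * n = N * n + n by ring, Finset.sum_range_add, ih]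
    have : ∀ i ∈ Finset.range n, f ((N * n + i) % n) = f i := by
      intro i hi
      rw [Finset.mem_range] at hi
      rw [mul_comm, Nat.mul_add_mod, Nat.mod_eq_of_lt hi]
    rw [Finset.sum_congr rfl this]
    push_cast
    ring

theorem sol_pow {θ : Par} {l n N : ℕ} (hn : 0 < n) {w : ℕ → Bool} {x : ℕ → ℝ}
    (hx : IsSol θ l n w x) :
    IsSol θ l (N * n) (fun i => w (i % n)) (fun i => x (i % n)) := by
  constructor
  · intro i _
    exact hx.1 _ (Nat.mod_lt _ hn)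
  · intro i _
    have h := hx.2 (i % n) (Nat.mod_lt _ hn)
    simp only
    rw [← h]
    congr 1
    rw [Nat.mod_mod_of_dvd _ (Dvd.intro_left N rfl), Nat.mod_add_mod]

theorem Lv_pow {θ : Par} (hθ : Good θ) {l n N : ℕ} (hn : 0 < n) (hN : 0 < N) (w : ℕ → Bool) :
    Lv θ l (N * n) (fun i => w (i % n)) = N * Lv θ l n w := by
  obtain ⟨x, hx⟩ := exists_sol hθ l n hn w
  rw [Lv_eq hθ hn hx, Lv_eq hθ (Nat.mul_pos hN hn) (sol_pow hn hx)]
  exact sum_pow n N (fun i => if w i then Real.log (1 - x i) else 0)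

theorem Lv_congr {θ : Par} (hθ : Good θ) {l n : ℕ} (hn : 0 < n) {w w' : ℕ → Bool}
    (h : ∀ i < n, w i = w' i) : Lv θ l n w = Lv θ l n w' := by
  obtain ⟨x, hx⟩ := exists_sol hθ l n hn w
  have hx' : IsSol θ l n w' x := ⟨hx.1, fun i hi => by rw [hx.2 i hi, h i hi]⟩
  rw [Lv_eq hθ hn hx, Lv_eq hθ hn hx']
  refine Finset.sum_congr rfl fun i hi => ?_
  rw [Finset.mem_range] at hi
  rw [h i hi]

end FBP46
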