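import Pool.Agent.FBP46.Step

set_option autoImplicit false

namespace FBP46

/-- number of letters `b` resp. `a` -/
noncomputable def cnt (b : Bool) (n : ℕ) (w : ℕ → Bool) : ℝ :=
  ∑ i ∈ Finset.range n, if w i = b then 1 else 0

theorem cnt_rot (b : Bool) (n : ℕ) (hn : 0 < n) (w : ℕ → Bool) (r : ℕ) :
    cnt b n (fun i => w ((i + r) % n)) = cnt b n w :=
  sum_rot n hn r (fun i => if w i = b then 1 else 0)

theorem cnt_add (n : ℕ) (w : ℕ → Bool) : cnt false n w + cnt true n w = n := by
  unfold cnt
  rw [← Finset.sum_add_distrib]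
  have : ∀ i ∈ Finset.range n, ((if w i = false then (1 : ℝ) else 0) + (if w i = true then 1 else 0)) = 1 := by
    intro i _
    cases w i <;> simp
  rw [Finset.sum_congr rfl this]
  simp

theorem sum_two_mul (n : ℕ) (f : ℕ → ℝ) :
    ∑ i ∈ Finset.range (2 * n), f i = ∑ j ∈ Finset.range n, (f (2 * j) + f (2 * j + 1)) := by
  induction n with
  | zero => simp
  | succ n ih =>
    rw [show 2 * (n + 1) = 2 * n + 1 + 1 by ring, Finset.sum_range_succ, Finset.sum_range_succ, ih,
      Finset.sum_range_succ]
    ring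

theorem two_mul_add_mod (n e j : ℕ) : (2 * j + (2 * e + 1)) % (2 * n) = 2 * ((j + e) % n) + 1 := by
  rcases Nat.eq_zero_or_pos n with rfl | hn
  · simp; ring
  have h1 := Nat.mod_add_div (j + e) n
  have h2 := Nat.mod_lt (j + e) hn
  have h3 : 2 * j + (2 * e + 1) = (2 * ((j + e) % n) + 1) + (2 * n) * ((j + e) / n) := by
    have : 2 * n * ((j + e) / n) = 2 * (n * ((j + e) / n)) := by ring
    rw [this]
    omega
  rw [h3, Nat.add_mul_mod_self_left, Nat.mod_eq_of_lt (by omega)]

theorem sig_even (w : ℕ → Bool) (j : ℕ) : sig w (2 * j) = false := by simp [sig]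

theorem sig_odd (w : ℕ → Bool) (j : ℕ) : sig w (2 * j + 1) = !(w j) := by
  have h : (2 * j + 1) / 2 = j := by omega
  simp [sig, h]

theorem sigma_rel {R t r : ℝ} (H : StepR R t r) (e n : ℕ) (hn : 0 < n) (w : ℕ → Bool) :
    Lv (red R t) (2 * e + 1) (2 * n) (sig w) =
      cnt false n w * Real.log ((1 - R ^ 2) / (1 + r)) +
      cnt true n w * Real.log ((1 + R ^ 2) / (1 - r)) + Lv (red r (tp R r)) (2 * e + 1) n w := by
  have hR := H.R0; have hr := H.r0; have hR1 := H.R1; have hr1 := H.r1
  have ht0 := H.t0; have ht1 := H.t1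
  obtain ⟨x, hx⟩ := exists_sol H.good (2 * e + 1) (2 * n) (by omega) (sig w)
  set l := 2 * e + 1 with hl
  set w' : ℕ → Bool := fun j => w ((j + e) % n) with hw'
  -- claims A and B
  have hA : ∀ j < n, x (2 * ((j + e) % n) + 1) = R * x (2 * j) := by
    intro j hj
    have h1 := hx.2 (2 * j) (by omega)
    rw [hl, two_mul_add_mod, sig_even, phi_red_a] at h1
    exact h1
  have hb : ∀ j < n, 0 ≤ x (2 * j) ∧ x (2 * j) ≤ 1 / 2 := fun j hj => hx.1 _ (by omega)
  have hden : ∀ j < n, 1 - R * x (2 * j) ≠ 0 := by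
    intro j hj
    have := hb j hj
    nlinarith
  have hB : ∀ j < n, x (2 * ((j + l) % n)) = phi (red R t) (!(w' j)) (R * x (2 * j)) := by
    intro j hj
    have hlt := Nat.mod_lt (j + e) hn
    have h1 := hx.2 (2 * ((j + e) % n) + 1) (by omega)
    rw [sig_odd, hA j hj] at h1
    rw [← h1]
    congr 1
    rw [show 2 * ((j + e) % n) + 1 + l = 2 * ((j + e) % n + (e + 1)) by rw [hl]; ring,
      Nat.mul_mod_mul_left, Nat.mod_add_mod]
    congr 2
    rw [hl]; ring
  -- claim C
  set P : ℝ := (r + R ^ 2) / (R * (1 + r)) with hP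
  have hRr : 0 < R * (1 + r) := by positivity
  have hPe : R * (1 + r) * P = r + R ^ 2 := by rw [hP]; field_simp
  have hP0 : 0 ≤ P := by rw [hP]; positivity
  have hP1 : P ≤ 1 / 2 := by
    rw [hP, div_le_iff₀ hRr]
    have := H.hi
    nlinarith
  have hPfix : phi (red R t) true (R * P) = P := by
    have h1 : 1 - R * P = (1 - R ^ 2) / (1 + r) := by
      rw [hP]; field_simp; ring
    have h2 : (1 - R ^ 2) ≠ 0 := by nlinarith
    rw [phi_red_b _ _ _ (by rw [h1]; positivity), h1, H.teq, hP]
    field_simp
    ring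
  have hC : ∀ j < n, x (2 * j) ≤ P := by
    obtain ⟨k, hk, hmax⟩ := Finset.exists_max_image (Finset.range n) (fun j => x (2 * j))
      ⟨0, by simpa using hn⟩
    rw [Finset.mem_range] at hk
    have hp : pre l n k < n := pre_lt hn
    have h1 := hB (pre l n k) hp
    rw [pre_add hn hk] at h1
    have h3 := hmax (pre l n k) (by simpa using hp)
    have b1 := hb _ hp
    have b2 := hb _ hk
    have hxk : x (2 * k) ≤ P := by
      by_contra hc
      push Not at hc
      cases hw : w' (pre l n k)
      · rw [hw, Bool.not_false] at h1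
        have c1 : 0 ≤ R * P := by positivity
        have c2 : R * P ≤ 1 / 2 := by nlinarith
        have c3 : 0 ≤ R * x (2 * pre l n k) := mul_nonneg hR.le b1.1
        have c4 : R * x (2 * pre l n k) ≤ 1 / 2 := by nlinarith
        have k1 := phi_lip H.good true c1 c2 c3 c4 (e := R * (x (2 * k) - P))
          (mul_nonneg hR.le (by linarith)) (by nlinarith)
        rw [← h1, hPfix] at k1
        nlinarith
      · rw [hw, Bool.not_true, phi_red_a] at h1
        have c1 : R * x (2 * pre l n k) ≤ 1 / 100 * x (2 * pre l n k) :=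
          mul_le_mul_of_nonneg_right hR1 b1.1
        have c2 : 0 ≤ R * x (2 * pre l n k) := mul_nonneg hR.le b1.1
        have c3 : R * (R * x (2 * pre l n k)) ≤ 1 / 100 * (R * x (2 * pre l n k)) :=
          mul_le_mul_of_nonneg_right hR1 c2
        linarith
    intro j hj
    exact (hmax j (by simpa using hj)).trans hxk
  -- the solution one level up
  have hy : IsSol (red r (tp R r)) l n w' (fun j => hh R r (x (2 * j))) := by
    constructor
    · intro j hj
      have b := hb j hj
      refine ⟨H.hh_nonneg b.1 b.2 ?_, H.hh_le b.1 b.2⟩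
      rw [← hPe]
      exact mul_le_mul_of_nonneg_left (hC j hj) hRr.le
    · intro j hj
      have b := hb j hj
      simp only
      rw [hB j hj]
      cases hw : w' j
      · rw [Bool.not_false, phi_red_b _ _ _ (hden j hj), H.S1 b.1 b.2, phi_red_a]
      · rw [Bool.not_true, phi_red_a, H.S2 b.1 b.2, phi_red_b]
        have := H.hh_le b.1 b.2
        intro h0
        linarith
  have hrot : Lv (red r (tp R r)) l n w = Lv (red r (tp R r)) l n w' := (Lv_rot H.good' hn w e).symm
  rw [hrot, Lv_eq H.good' hn hy, Lv_eq H.good (by omega) hx, ← cnt_rot false n hn w e,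
    ← cnt_rot true n hn w e, sum_two_mul]
  have hDpos : ∀ j < n, 0 < DD R r (x (2 * j)) := fun j hj => by
    have := H.DD_pos (hb j hj).1 (hb j hj).2
    linarith
  -- left side
  have hL : ∑ j ∈ Finset.range n, ((if sig w (2 * j) = true then Real.log (1 - x (2 * j)) else 0) +
      (if sig w (2 * j + 1) = true then Real.log (1 - x (2 * j + 1)) else 0)) =
      ∑ j ∈ Finset.range n, (if w' j = false then Real.log (1 - R * x (2 * j)) else 0) := by
    rw [← sum_rot n hn e]
    refine Finset.sum_congr rfl fun j hj => ?_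
    rw [Finset.mem_range] at hj
    rw [sig_even, sig_odd, hA j hj]
    have : w' j = w ((j + e) % n) := rfl
    rw [this]
    cases w ((j + e) % n) <;> simp
  rw [hL]
  -- telescoping
  have hT : ∑ j ∈ Finset.range n, (Real.log (DD R r (x (2 * j))) -
      Real.log (DD R r (x (2 * ((j + l) % n))))) = 0 := by
    rw [Finset.sum_sub_distrib, sum_rot n hn l (fun j => Real.log (DD R r (x (2 * j)))), sub_self]
  have hpt : ∀ j ∈ Finset.range n, (if w' j = false then Real.log (1 - R * x (2 * j)) else 0) =
      (if w' j = false then (1 : ℝ) else 0) * Real.log ((1 - R ^ 2) / (1 + r)) +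
      (if w' j = true then (1 : ℝ) else 0) * Real.log ((1 + R ^ 2) / (1 - r)) +
      (if w' j = true then Real.log (1 - hh R r (x (2 * j))) else 0) +
      (Real.log (DD R r (x (2 * j))) - Real.log (DD R r (x (2 * ((j + l) % n))))) := by
    intro j hj
    rw [Finset.mem_range] at hj
    have b := hb j hj
    have hD1 := hDpos j hj
    have hD2 := hDpos ((j + l) % n) (Nat.mod_lt _ hn)
    rw [hB j hj] at hD2 ⊢
    cases hw : w' j
    · rw [hw, Bool.not_false, phi_red_b _ _ _ (hden j hj)] at hD2
      rw [Bool.not_false, phi_red_b _ _ _ (hden j hj)]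
      have h3 := H.S3 b.1 b.2
      have hR2 : 0 < 1 - R ^ 2 := by nlinarith
      have hpos : 0 < 1 - R * x (2 * j) := by nlinarith [b.1, b.2]
      have h4 := congrArg Real.log h3
      rw [Real.log_mul hpos.ne' hD2.ne', Real.log_mul (by positivity) hD1.ne'] at h4
      simp
      linarith
    · rw [hw, Bool.not_true, phi_red_a] at hD2
      rw [Bool.not_true, phi_red_a]
      have h3 := H.S4 b.1 b.2
      have hpos : 0 < 1 - hh R r (x (2 * j)) := by
        have := H.hh_le b.1 b.2
        linarith
      have hr2 : 0 < 1 - r := by linarith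
      have h4 := congrArg Real.log h3
      rw [Real.log_mul (by positivity) hD1.ne', Real.log_mul (by positivity) hpos.ne'] at h4
      simp
      linarith
  rw [Finset.sum_congr rfl hpt, Finset.sum_add_distrib, hT, Finset.sum_add_distrib,
    Finset.sum_add_distrib, ← Finset.sum_mul, ← Finset.sum_mul]
  unfold cnt
  ring

end FBP46
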