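import Pool.Agent.FBP46.Rot
import Pool.Agent.FBP46.Basic

set_option autoImplicit false

namespace FBP46

/-- the reduced two parameter family -/
noncomputable def red (R t : ℝ) : Par := ⟨R, R + t, t⟩

/-- `r` is the next `R` -/
structure StepR (R t r : ℝ) : Prop where
  R0 : 0 < R
  t0 : 0 < t
  R1 : R ≤ 1 / 100
  t1 : t ≤ 1 / 100
  r0 : 0 < r
  eq : R * t * (1 + r) ^ 2 = r * (1 - R ^ 2) ^ 2
  lo : R * t ≤ r
  hi : r ≤ 1001 / 1000 * (R * t)

theorem exists_step {R t : ℝ} (R0 : 0 < R) (t0 : 0 < t) (R1 : R ≤ 1 / 100) (t1 : t ≤ 1 / 100) :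
    ∃ r, StepR R t r := by
  have hRt : 0 < R * t := mul_pos R0 t0
  have hRt1 : R * t ≤ 1 / 10000 := by nlinarith
  have hR2 : R ^ 2 ≤ 1 / 10000 := by nlinarith
  have hR20 : 0 < R ^ 2 := by positivity
  let f : ℝ → ℝ := fun r => r * (1 - R ^ 2) ^ 2 - R * t * (1 + r) ^ 2
  have hf : Continuous f := by fun_prop
  have h1 : f (R * t) ≤ 0 := by
    simp only [f]
    nlinarith [mul_pos hRt hR20, mul_pos hRt hRt, sq_nonneg (R ^ 2), mul_pos hRt (mul_pos hR20 hR20)]
  have h2 : 0 ≤ f (1001 / 1000 * (R * t)) := by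
    simp only [f]
    have e1 : (1 + 1001 / 1000 * (R * t)) ^ 2 ≤ 1 + 3 / 10000 := by nlinarith
    have e2 : 1 - 2 / 10000 ≤ (1 - R ^ 2) ^ 2 := by nlinarith
    have : R * t * (1 + 1001 / 1000 * (R * t)) ^ 2 ≤ R * t * (1 + 3 / 10000) :=
      mul_le_mul_of_nonneg_left e1 hRt.le
    have : 1001 / 1000 * (R * t) * (1 - 2 / 10000) ≤ 1001 / 1000 * (R * t) * (1 - R ^ 2) ^ 2 :=
      mul_le_mul_of_nonneg_left e2 (by positivity)
    nlinarith
  have h3 : R * t ≤ 1001 / 1000 * (R * t) := by linarith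
  obtain ⟨r, hr, hr0⟩ := intermediate_value_Icc h3 hf.continuousOn (show (0 : ℝ) ∈ Set.Icc _ _ from ⟨h1, h2⟩)
  refine ⟨r, R0, t0, R1, t1, by linarith [hr.1], ?_, hr.1, hr.2⟩
  simp only [f] at hr0
  linarith

/-- the next `t` -/
noncomputable def tp (R r : ℝ) : ℝ := R ^ 2 * (1 - r) ^ 2 / (1 + R ^ 2) ^ 2

/-- denominator function -/
noncomputable def DD (R r z : ℝ) : ℝ := (1 + R ^ 2 * r) - R * (1 + r) * z

/-- coordinate change -/
noncomputable def hh (R r z : ℝ) : ℝ :=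
  (1 + R ^ 2 * r) * ((r + R ^ 2) - R * (1 + r) * z) / ((1 + R ^ 2) * DD R r z)

theorem good_red {R t : ℝ} (R0 : 0 < R) (t0 : 0 < t) (R1 : R ≤ 1 / 100) (t1 : t ≤ 1 / 100) :
    Good (red R t) := by
  constructor <;> simp only [red] <;> linarith

theorem phi_red_b (R t z : ℝ) (hz : 1 - z ≠ 0) : phi (red R t) true z = R + t / (1 - z) := by
  simp only [phi, if_true, red]
  field_simp
  ring

theorem phi_red_a (R t z : ℝ) : phi (red R t) false z = R * z := by
  simp [phi, red]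

section
variable {R t r : ℝ} (H : StepR R t r)
include H

theorem StepR.teq : t = r * (1 - R ^ 2) ^ 2 / (R * (1 + r) ^ 2) := by
  have h1 : R * (1 + r) ^ 2 ≠ 0 := by
    have := H.R0; have := H.r0; positivity
  rw [eq_div_iff h1, ← H.eq]
  ring

theorem StepR.r1 : r ≤ 11 / 100000 := by
  have := H.hi
  have := H.R1; have := H.t1; have := H.R0; have := H.t0
  nlinarith

theorem StepR.DD_pos {z : ℝ} (_h0 : 0 ≤ z) (h1 : z ≤ 1 / 2) : 1 / 2 < DD R r z := by
  unfold DD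
  have := H.R0; have := H.r0; have := H.R1; have := H.r1
  have h3 : R * (1 + r) ≤ 1 / 50 := by nlinarith
  have h4 : R * (1 + r) * z ≤ 1 / 50 * (1 / 2) := by
    apply mul_le_mul h3 h1 _h0 (by norm_num)
  have : 0 ≤ R ^ 2 * r := by positivity
  linarith

/-- letter a, factor -/
theorem StepR.S3 {z : ℝ} (h0 : 0 ≤ z) (h1 : z ≤ 1 / 2) :
    (1 - R * z) * DD R r (R + t / (1 - R * z)) = (1 - R ^ 2) / (1 + r) * DD R r z := by
  have hR := H.R0; have hr := H.r0; have := H.R1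
  have h2 : (1 - R * z) ≠ 0 := by nlinarith
  have h3 : (1 + r) ≠ 0 := by positivity
  have ht := H.teq
  unfold DD
  rw [ht]
  have hR' : R ≠ 0 := hR.ne'
  field_simp
  ring

/-- letter b, factor -/
theorem StepR.S4 {z : ℝ} (h0 : 0 ≤ z) (h1 : z ≤ 1 / 2) :
    DD R r (R * (R * z)) = (1 + R ^ 2) / (1 - r) * (1 - hh R r z) * DD R r z := by
  have hD := H.DD_pos h0 h1
  have hr := H.r1
  have h2 : (1 - r) ≠ 0 := by linarith
  have h3 : (1 + R ^ 2) ≠ 0 := by positivity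
  have h4 : DD R r z ≠ 0 := by linarith
  unfold hh
  field_simp
  unfold DD
  ring

theorem StepR.hh_le {z : ℝ} (h0 : 0 ≤ z) (h1 : z ≤ 1 / 2) : hh R r z ≤ 1 / 2 := by
  have hD := H.DD_pos h0 h1
  have hr := H.r1
  have hr0 := H.r0
  have hR := H.R1
  have hR0 := H.R0
  unfold hh
  rw [div_le_iff₀ (by positivity)]
  have hR2 : R ^ 2 ≤ 1 / 10000 := by nlinarith
  have hZ : 0 ≤ R * (1 + r) * z := by positivity
  have h5 : R ^ 2 * r ≤ 1 / 10000 := by nlinarith [sq_nonneg R]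
  have h6 : 0 ≤ R ^ 2 * r := by positivity
  nlinarith

theorem StepR.hh_nonneg {z : ℝ} (h0 : 0 ≤ z) (h1 : z ≤ 1 / 2)
    (h2 : R * (1 + r) * z ≤ r + R ^ 2) : 0 ≤ hh R r z := by
  have hD := H.DD_pos h0 h1
  have hr0 := H.r0
  unfold hh
  exact div_nonneg (mul_nonneg (by positivity) (by linarith)) (by positivity)

/-- letter a -/
theorem StepR.S1 {z : ℝ} (h0 : 0 ≤ z) (h1 : z ≤ 1 / 2) :
    hh R r (R + t / (1 - R * z)) = r * hh R r z := by
  have hR := H.R0; have hr := H.r0; have hR1 := H.R1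
  have hD := H.DD_pos h0 h1
  have h2 : (1 - R * z) ≠ 0 := by nlinarith
  have h3 := H.S3 h0 h1
  have h4 : (1 - R ^ 2) / (1 + r) ≠ 0 := by
    have : 0 < 1 - R ^ 2 := by nlinarith
    positivity
  have hD2 : DD R r (R + t / (1 - R * z)) = (1 - R ^ 2) / (1 + r) * DD R r z / (1 - R * z) := by
    rw [eq_div_iff h2, ← h3]; ring
  unfold hh
  rw [hD2]
  have h5 : (1 - R ^ 2) ≠ 0 := by nlinarith
  have h6 : DD R r z ≠ 0 := by linarith
  have ht := H.teq
  rw [ht]
  have h7 : (1 + R ^ 2) ≠ 0 := by positivity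
  have h8 : (1 + r) ≠ 0 := by positivity
  field_simp
  ring

/-- letter b -/
theorem StepR.S2 {z : ℝ} (h0 : 0 ≤ z) (h1 : z ≤ 1 / 2) :
    hh R r (R * (R * z)) = r + tp R r / (1 - hh R r z) := by
  have hR := H.R0; have hr := H.r0; have hR1 := H.R1; have hr1 := H.r1
  have hz2 : R * (R * z) ≤ 1 / 2 := by
    have : R * z ≤ 1 := by nlinarith
    nlinarith
  have hz20 : 0 ≤ R * (R * z) := by positivity
  have hD := H.DD_pos h0 h1
  have hD2 := H.DD_pos hz20 hz2
  have h4 := H.S4 h0 h1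
  have h5 : 1 - hh R r z = DD R r (R * (R * z)) * (1 - r) / ((1 + R ^ 2) * DD R r z) := by
    rw [h4]
    have h6 : DD R r z ≠ 0 := by linarith
    have h7 : (1 - r) ≠ 0 := by linarith
    field_simp
  rw [h5]
  have h6 : DD R r z ≠ 0 := by linarith
  have h7 : (1 - r) ≠ 0 := by linarith
  have h8 : DD R r (R * (R * z)) ≠ 0 := by linarith
  have h9 : (1 + R ^ 2) ≠ 0 := by positivity
  have e1 : tp R r / (DD R r (R * (R * z)) * (1 - r) / ((1 + R ^ 2) * DD R r z)) =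
      R ^ 2 * (1 - r) * DD R r z / ((1 + R ^ 2) * DD R r (R * (R * z))) := by
    unfold tp
    generalize DD R r z = A at *
    generalize DD R r (R * (R * z)) = B at *
    field_simp
  rw [e1]
  unfold hh
  rw [div_eq_iff (mul_ne_zero h9 h8), add_mul r, div_mul_cancel₀ _ (mul_ne_zero h9 h8)]
  unfold DD
  ring

theorem StepR.tp_pos : 0 < tp R r := by
  have hR := H.R0; have hr := H.r1
  unfold tp
  have : 0 < 1 - r := by linarith
  positivity

theorem StepR.tp_le : tp R r ≤ R ^ 2 := by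
  have hR := H.R0; have hr := H.r1; have hr0 := H.r0
  unfold tp
  rw [div_le_iff₀ (by positivity)]
  have h1 : (1 - r) ^ 2 ≤ 1 := by nlinarith
  have h2 : 1 ≤ (1 + R ^ 2) ^ 2 := by nlinarith [sq_nonneg R]
  have h3 : 0 < R ^ 2 := by positivity
  nlinarith

theorem StepR.tp_ge : 999 / 1000 * R ^ 2 ≤ tp R r := by
  have hR := H.R0; have hr := H.r1; have hr0 := H.r0; have hR1 := H.R1
  unfold tp
  rw [le_div_iff₀ (by positivity)]
  have h3 : 0 < R ^ 2 := by positivity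
  have h4 : R ^ 2 ≤ 1 / 10000 := by nlinarith
  have h1 : 1 - 23 / 100000 ≤ (1 - r) ^ 2 := by nlinarith
  have h2 : (1 + R ^ 2) ^ 2 ≤ 1 + 21 / 100000 := by nlinarith
  have h5 : 999 / 1000 * (1 + R ^ 2) ^ 2 ≤ (1 - r) ^ 2 := by linarith
  nlinarith

theorem StepR.good : Good (red R t) := good_red H.R0 H.t0 H.R1 H.t1

theorem StepR.good' : Good (red r (tp R r)) := by
  refine good_red H.r0 H.tp_pos ?_ ?_
  · linarith [H.r1]
  · have := H.tp_le
    have := H.R1; have := H.R0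
    nlinarith

end

end FBP46
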